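import Pool.Agent.Lib_MP_70e04f_hex.Defs

/-!
# The slopes of the row profile
-/

namespace Pool.MP_70e04f_ag.Hex

lemma T2_of_nonneg {x : ℤ} (h : 0 ≤ x) : T2 x = x * (x + 1) := if_pos h

lemma T2_of_neg_one {x : ℤ} (h : -1 ≤ x) : T2 x = x * (x + 1) := by
  unfold T2
  split_ifs with h1
  · rfl
  · have : x = -1 := by omega
    rw [this]; norm_num

lemma T2_of_nonpos {x : ℤ} (h : x ≤ 0) : T2 x = 0 := by
  unfold T2
  split_ifs with h1
  · have : x = 0 := by omega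
    rw [this]; norm_num
  · rfl

lemma T2_nonneg (x : ℤ) : 0 ≤ T2 x := by
  unfold T2
  split_ifs with h1
  · positivity
  · exact le_rfl

/-- The second difference of `T2`. -/
lemma T2_conv (x c : ℤ) (hc : 0 ≤ c) : 0 ≤ T2 x - 2 * T2 (x - c) + T2 (x - 2 * c) ∧
    T2 x - 2 * T2 (x - c) + T2 (x - 2 * c) ≤ 2 * c ^ 2 := by
  unfold T2
  split_ifs <;> constructor <;> nlinarith

/-- The second difference of `T2` is monotone: one step. -/
lemma T2_step (x c : ℤ) : T2 x - 2 * T2 (x - c) + T2 (x - 2 * c) ≤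
    T2 (x + 1) - 2 * T2 (x + 1 - c) + T2 (x + 1 - 2 * c) := by
  have key : ∀ y : ℤ, T2 (y + 1) - T2 y = 2 * max 0 (y + 1) := by
    intro y
    rcases le_or_gt 0 y with h | h
    · rw [T2_of_nonneg h, T2_of_nonneg (by omega), max_eq_right (by omega)]; ring
    · rw [T2_of_nonpos (show y + 1 ≤ 0 by omega), T2_of_nonpos (by omega),
        max_eq_left (by omega)]; ring
  have h1 := key x
  have h2 := key (x - c)
  have h3 := key (x - 2 * c)
  rw [show x - c + 1 = x + 1 - c by ring] at h2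
  rw [show x - 2 * c + 1 = x + 1 - 2 * c by ring] at h3
  have h4 : 2 * max 0 (x + 1 - c) ≤ max 0 (x + 1) + max 0 (x + 1 - 2 * c) := by
    rcases le_or_gt 0 (x + 1 - c) with h | h
    · rw [max_eq_right h]
      have := le_max_right 0 (x + 1)
      have := le_max_right 0 (x + 1 - 2 * c)
      linarith
    · rw [max_eq_left h.le]
      have := le_max_left 0 (x + 1)
      have := le_max_left 0 (x + 1 - 2 * c)
      linarith
  linarith

lemma T2_mono (c : ℤ) : Monotone fun x : ℤ =>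
    T2 x - 2 * T2 (x - c) + T2 (x - 2 * c) :=
  monotone_int_of_le_succ fun x => T2_step x c

/-- The second difference of `F2`. -/
def S2 (k l A B g e : ℤ) : ℤ :=
  F2 A B g e - 2 * F2 (A - k) (B - l) (g - l) (e - l) +
    F2 (A - 2 * k) (B - 2 * l) (g - 2 * l) (e - 2 * l)

lemma S2_eq (k l A B g e : ℤ) : S2 k l A B g e = 4 * k * l -
    (T2 g - 2 * T2 (g - l) + T2 (g - 2 * l)) - (T2 e - 2 * T2 (e - l) + T2 (e - 2 * l)) +
    (T2 (g - 2 * l - (A - 2 * k) - 1) - 2 * T2 (g - 2 * l - (A - 2 * k) - 1 - (k - l)) +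
      T2 (g - 2 * l - (A - 2 * k) - 1 - 2 * (k - l))) +
    (T2 (e - 2 * l - (A - 2 * k) - 1) - 2 * T2 (e - 2 * l - (A - 2 * k) - 1 - (k - l)) +
      T2 (e - 2 * l - (A - 2 * k) - 1 - 2 * (k - l))) := by
  unfold S2 F2
  rw [show g - 2 * l - (A - 2 * k) - 1 - (k - l) = g - l - (A - k) - 1 by ring,
    show g - 2 * l - (A - 2 * k) - 1 - 2 * (k - l) = g - A - 1 by ring,
    show e - 2 * l - (A - 2 * k) - 1 - (k - l) = e - l - (A - k) - 1 by ring,
    show e - 2 * l - (A - 2 * k) - 1 - 2 * (k - l) = e - A - 1 by ring]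
  ring

/-- The slopes are at least `2 l (k - l)`. -/
lemma S2_ge (k l A B g e : ℤ) (hl : 0 ≤ l) (hlk : l ≤ k) : 4 * l * (k - l) ≤ S2 k l A B g e := by
  rw [S2_eq]
  have h1 := (T2_conv g l hl).2
  have h2 := (T2_conv e l hl).2
  have h3 := (T2_conv (g - 2 * l - (A - 2 * k) - 1) (k - l) (by omega)).1
  have h4 := (T2_conv (e - 2 * l - (A - 2 * k) - 1) (k - l) (by omega)).1
  nlinarith

/-- The slopes increase. -/
lemma S2_mono (k l A B g e : ℤ) (hl : 0 ≤ l) (hlk : l ≤ k) :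
    S2 k l A B g e ≤ S2 k l (A - k) (B - l) (g - l) (e - l) := by
  rw [S2_eq, S2_eq]
  have h1 := T2_mono l (show g - l ≤ g by omega)
  have h2 := T2_mono l (show e - l ≤ e by omega)
  have h3 := T2_mono (k - l) (show g - 2 * l - (A - 2 * k) - 1 ≤
    g - l - 2 * l - (A - k - 2 * k) - 1 by omega)
  have h4 := T2_mono (k - l) (show e - 2 * l - (A - 2 * k) - 1 ≤
    e - l - 2 * l - (A - k - 2 * k) - 1 by omega)
  simp only at h1 h2 h3 h4
  linarith

lemma T2_monotone {x y : ℤ} (h : x ≤ y) : T2 x ≤ T2 y := by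
  rcases le_or_gt 0 x with h1 | h1
  · rw [T2_of_nonneg h1, T2_of_nonneg (by omega)]
    nlinarith
  · rw [T2_of_nonpos h1.le]
    exact T2_nonneg y

lemma F2_symm (A B g e : ℤ) : F2 A B g e = F2 A B e g := by
  unfold F2
  ring

/-- The end slope, a far corner. -/
lemma end_slopeA_far (p X Y g e : ℤ) (hp : 0 ≤ p) (hX1 : 1 ≤ X) (hX2 : X ≤ 2 * p + 1)
    (hY : X + p ≤ Y) (hYe : e ≤ Y) (hge : g + e ≤ X - 1) (he : X < e) :
    4 * p * (p + 1) ≤ F2 (X - 1 + (2 * p + 1)) (Y - 1 + (p + 1)) (g + (p + 1)) (e + (p + 1)) -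
      2 * F2 (X - 1) (Y - 1) g e := by
  obtain ⟨z, rfl⟩ : ∃ z, e = X + z := ⟨e - X, by ring⟩
  have hz : 1 ≤ z := by omega
  have h1 : T2 g = 0 := T2_of_nonpos (by omega)
  have h2 : T2 (g - (X - 1) - 1) = 0 := T2_of_nonpos (by omega)
  have h3 := T2_nonneg (g + (p + 1) - (X - 1 + (2 * p + 1)) - 1)
  have h4 : T2 (g + (p + 1)) ≤ T2 (p - z) := T2_monotone (by omega)
  have h5 : T2 (X + z + (p + 1)) = (X + z + (p + 1)) * (X + z + (p + 1) + 1) :=
    T2_of_nonneg (by omega)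
  have h6 : T2 (X + z) = (X + z) * (X + z + 1) := T2_of_nonneg (by omega)
  have h7 : T2 (X + z - (X - 1) - 1) = z * (z + 1) := by
    rw [show X + z - (X - 1) - 1 = z by ring]; exact T2_of_nonneg (by omega)
  have h8 : T2 (X + z + (p + 1) - (X - 1 + (2 * p + 1)) - 1) = T2 (z - p) := by
    congr 1; ring
  unfold F2
  rw [h1, h2, h5, h6, h7, h8]
  rcases le_or_gt z p with hzp | hzp
  · have h9 : T2 (p - z) = (p - z) * (p - z + 1) := T2_of_nonneg (by omega)
    have h10 : T2 (z - p) = 0 := T2_of_nonpos (by omega)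
    rw [h9] at h4
    rw [h10]
    have h11 : (2 * p + 1 - X) * (X + p) ≤ (2 * p + 1 - X) * Y :=
      mul_le_mul_of_nonneg_left hY (by omega)
    have h12 : 0 ≤ z * (X - 1) := mul_nonneg (by omega) (by omega)
    have h13 : 0 ≤ (p - z) * (p + z) := mul_nonneg (by omega) (by omega)
    have h14 : 0 ≤ X * (2 * p + 1 - X) := mul_nonneg (by omega) (by omega)
    nlinarith
  · have h9 : T2 (p - z) = 0 := T2_of_nonpos (by omega)
    have h10 : T2 (z - p) = (z - p) * (z - p + 1) := T2_of_nonneg (by omega)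
    rw [h9] at h4
    rw [h10]
    have h11 : (2 * p + 1 - X) * (X + z) ≤ (2 * p + 1 - X) * Y :=
      mul_le_mul_of_nonneg_left hYe (by omega)
    have h14 : 0 ≤ X * (2 * p + 1 - X) := mul_nonneg (by omega) (by omega)
    have h15 : 0 ≤ (p + 1) * (X - 1) := mul_nonneg (by omega) (by omega)
    nlinarith

/-- The end slope. -/
lemma end_slopeA (p X Y g e : ℤ) (hp : 0 ≤ p) (hX1 : 1 ≤ X) (hX2 : X ≤ 2 * p + 1)
    (hY : X + p ≤ Y) (hYg : g ≤ Y) (hYe : e ≤ Y) (hge : g + e ≤ X - 1) :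
    4 * p * (p + 1) ≤ F2 (X - 1 + (2 * p + 1)) (Y - 1 + (p + 1)) (g + (p + 1)) (e + (p + 1)) -
      2 * F2 (X - 1) (Y - 1) g e := by
  rcases lt_or_ge X e with he | he
  · exact end_slopeA_far p X Y g e hp hX1 hX2 hY hYe hge he
  rcases lt_or_ge X g with hg | hg
  · rw [F2_symm _ _ (g + (p + 1)), F2_symm _ _ g]
    exact end_slopeA_far p X Y e g hp hX1 hX2 hY hYg (by omega) hg
  have key : ∀ x : ℤ, x ≤ X → -(2 * (p + 1) ^ 2) ≤ -T2 (x + (p + 1)) + 2 * T2 x := by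
    intro x _
    have h1 := (T2_conv (x + (p + 1)) (p + 1) (by omega)).2
    have h2 := T2_nonneg (x + (p + 1) - 2 * (p + 1))
    rw [show x + (p + 1) - (p + 1) = x by ring] at h1
    linarith
  have h1 := key g hg
  have h2 := key e he
  have h3 : T2 (g - (X - 1) - 1) = 0 := T2_of_nonpos (by omega)
  have h4 : T2 (e - (X - 1) - 1) = 0 := T2_of_nonpos (by omega)
  have h5 := T2_nonneg (g + (p + 1) - (X - 1 + (2 * p + 1)) - 1)
  have h6 := T2_nonneg (e + (p + 1) - (X - 1 + (2 * p + 1)) - 1)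
  have h7 : (2 * p + 1 - X) * (X + p) ≤ (2 * p + 1 - X) * Y :=
    mul_le_mul_of_nonneg_left hY (by omega)
  have h8 : 0 ≤ (X - 1) * (2 * p + 1 - X) := mul_nonneg (by omega) (by omega)
  unfold F2
  rw [h3, h4]
  nlinarith

end Pool.MP_70e04f_ag.Hex
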