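import Pool.Agent.Lib_MP_70e04f_hex.Zed

/-!
# Distributing the large points to the three coordinate points
-/

namespace Pool.MP_70e04f_ag.Hex

section
variable {n : ℕ} (mm : Fin n → ℕ) (T : Finset (Fin n)) (f : ↥T ↪ Fin 3)

/-- The multiplicity at the coordinate point `j`. -/
def slotv (j : Fin 3) : ℕ := ∑ t : ↥T, if f t = j then mm t.1 else 0

lemma slotv_apply (t : ↥T) : slotv mm T f (f t) = mm t.1 := by
  classical
  unfold slotv
  rw [Finset.sum_eq_single t]
  · rw [if_pos rfl]
  · intro b _ hb
    rw [if_neg (fun h => hb (f.injective h))]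
  · intro h; exact absurd (Finset.mem_univ t) h

lemma slotv_zero (j : Fin 3) (hj : ∀ t, f t ≠ j) : slotv mm T f j = 0 := by
  unfold slotv
  apply Finset.sum_eq_zero
  intro t _
  rw [if_neg (hj t)]

lemma slotv_val (j : Fin 3) : slotv mm T f j = 0 ∨ ∃ i ∈ T, slotv mm T f j = mm i := by
  by_cases hj : ∃ t, f t = j
  · obtain ⟨t, rfl⟩ := hj
    exact Or.inr ⟨t.1, t.2, slotv_apply mm T f t⟩
  · push Not at hj
    exact Or.inl (slotv_zero mm T f j hj)

lemma slotv_le (d : ℕ) (hdT : ∀ i ∈ T, mm i ≤ d) (j : Fin 3) : slotv mm T f j ≤ d := by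
  rcases slotv_val mm T f j with h | ⟨i, hi, h⟩
  · omega
  · rw [h]; exact hdT i hi

lemma slotv_pair (d : ℕ) (hdT : ∀ i ∈ T, mm i ≤ d)
    (hpair : ∀ i ∈ T, ∀ j ∈ T, i ≠ j → mm i + mm j ≤ d) (j j' : Fin 3) (hjj : j ≠ j') :
    slotv mm T f j + slotv mm T f j' ≤ d := by
  by_cases hj : ∃ t, f t = j
  · by_cases hj' : ∃ t, f t = j'
    · obtain ⟨t, rfl⟩ := hj
      obtain ⟨t', rfl⟩ := hj'
      rw [slotv_apply, slotv_apply]
      apply hpair t.1 t.2 t'.1 t'.2
      intro h
      exact hjj (congrArg f (Subtype.ext h))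
    · push Not at hj'
      rw [slotv_zero mm T f j' hj', add_zero]
      exact slotv_le mm T f d hdT j
  · push Not at hj
    rw [slotv_zero mm T f j hj, zero_add]
    exact slotv_le mm T f d hdT j'

/-- Distributing the points: from three coordinate points and the others to a family. -/
theorem tri_of_emb (d : ℕ) (hdT : ∀ i ∈ T, mm i ≤ d + 1)
    (hpair : ∀ i ∈ T, ∀ j ∈ T, i ≠ j → mm i + mm j ≤ d + 1)
    (h : OK (zed d (slotv mm T f 0) (slotv mm T f 1) (slotv mm T f 2))
      (fun i => if i ∈ T then 0 else mm i)) :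
    OK (tri (d + 1)) mm := by
  classical
  have hle := slotv_le mm T f (d + 1) hdT
  have hpr := slotv_pair mm T f (d + 1) hdT hpair
  have h1 := tri_of_zed (hle 0) (hle 1) (hle 2) (hpr 0 1 (by decide)) (hpr 0 2 (by decide))
    (hpr 1 2 (by decide)) h
  let slot : Fin 3 → Option (Option (Option (Fin n))) := ![some none, none, some (some none)]
  have hslot : Function.Injective slot := by
    intro a b hab
    fin_cases a <;> fin_cases b <;> simp_all [slot]
  have hslotv : ∀ j, (slot j).elim (slotv mm T f 1) (fun o => o.elim (slotv mm T f 0)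
      (fun o => o.elim (slotv mm T f 2)
      (fun i => if i ∈ T then 0 else mm i))) = slotv mm T f j := by
    intro j
    fin_cases j <;> rfl
  have hslotn : ∀ j i, slot j ≠ some (some (some i)) := by
    intro j i
    fin_cases j <;> simp [slot]
  refine OK.restrict (fun i : Fin n => if h : i ∈ T then slot (f ⟨i, h⟩) else some (some (some i)))
    ?_ ?_ ?_ h1
  · intro i i' hii
    simp only at hii
    by_cases hi : i ∈ T
    · by_cases hi' : i' ∈ T
      · rw [dif_pos hi, dif_pos hi'] at hii
        have := f.injective (hslot hii)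
        exact congrArg Subtype.val this
      · rw [dif_pos hi, dif_neg hi'] at hii
        exact absurd hii (hslotn _ _)
    · by_cases hi' : i' ∈ T
      · rw [dif_neg hi, dif_pos hi'] at hii
        exact absurd hii.symm (hslotn _ _)
      · rw [dif_neg hi, dif_neg hi'] at hii
        simpa using hii
  · intro i
    by_cases hi : i ∈ T
    · simp only [dif_pos hi]
      rw [hslotv, slotv_apply]
    · simp only [dif_neg hi]
      simp [hi]
  · intro o ho
    have hz : ∀ j, slot j = o → slotv mm T f j = 0 := by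
      intro j hj
      apply slotv_zero
      intro t ht
      apply ho
      refine ⟨t.1, ?_⟩
      simp only [dif_pos t.2]
      change slot (f t) = _
      rw [ht, hj]
    rcases o with _ | (_ | (_ | i))
    · exact hz 1 rfl
    · exact hz 0 rfl
    · exact hz 2 rfl
    · by_cases hi : i ∈ T
      · simp [hi]
      · exfalso
        apply ho
        exact ⟨i, by simp only [dif_neg hi]⟩

end

end Pool.MP_70e04f_ag.Hex
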