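import Pool.Agent.Lib_MP_70e04f_hex.HexThree
import Pool.Agent.Lib_MP_70e04f_hex.Slots

/-!
# Three arbitrary multiplicities
-/

namespace Pool.MP_70e04f_ag.Hex

section
variable {n : ℕ} (p m s M d : ℕ) (mm : Fin n → ℕ)
  (h7 : 7 * m + s < 2 * p * (p + 1)) (hM : 2 * m + 1 ≤ M) (hmm : ∀ i, mm i ≤ M)
  (hs : (Finset.univ.filter (fun i => m < mm i)).card ≤ s)
include h7 hM hmm hs

lemma zed_sorted (al be ga : ℕ) (h1 : be ≤ al) (h2 : ga ≤ be)
    (hA : (2 * p + 1) * M + al ≤ d) (h12 : al + be ≤ d + 1) :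
    OK (zed d al be ga) mm := by
  rw [zed_eq_hex (by omega) (by omega)]
  apply hex_three p m s M (d - al) (d - be) ga (d - al - be) mm h7 hM hmm hs
  · omega
  · omega
  · omega

lemma zed_three (al be ga : ℕ) (hA : (2 * p + 1) * M + al ≤ d) (hB : (2 * p + 1) * M + be ≤ d)
    (hC : (2 * p + 1) * M + ga ≤ d) (h12 : al + be ≤ d + 1) (h13 : al + ga ≤ d + 1)
    (h23 : be + ga ≤ d + 1) : OK (zed d al be ga) mm := by
  have key := zed_sorted p m s M d mm h7 hM hmm hs
  rcases Nat.le_total be al with h1 | h1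
  · rcases Nat.le_total ga be with h2 | h2
    · exact key al be ga h1 h2 hA h12
    · rcases Nat.le_total ga al with h3 | h3
      · exact zed_swap2 (key al ga be h3 h2 hA h13)
      · exact zed_swap1 (zed_swap2 (key ga al be h3 h1 hC (by omega)))
  · rcases Nat.le_total ga al with h2 | h2
    · exact zed_swap1 (zed_swap2 (zed_swap1 (key be al ga h1 h2 hB (by omega))))
    · rcases Nat.le_total ga be with h3 | h3
      · exact zed_swap2 (zed_swap1 (key be ga al h3 h2 hB h23))
      · exact zed_swap1 (key ga be al h3 h1 hC (by omega))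

end

/-- Three arbitrary multiplicities. -/
theorem tri_three {n : ℕ} (p m s M d : ℕ) (mm : Fin n → ℕ) (T : Finset (Fin n))
    (hT : T.card ≤ 3) (h7 : 7 * m + s < 2 * p * (p + 1)) (hM : 2 * m + 1 ≤ M)
    (hmm : ∀ i, i ∉ T → mm i ≤ M)
    (hs : (Finset.univ.filter (fun i => i ∉ T ∧ m < mm i)).card ≤ s)
    (hd : (2 * p + 1) * M ≤ d) (hdT : ∀ i ∈ T, mm i + (2 * p + 1) * M ≤ d)
    (hpair : ∀ i ∈ T, ∀ j ∈ T, i ≠ j → mm i + mm j ≤ d + 1) :
    OK (tri (d + 1)) mm := by
  classical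
  obtain ⟨f⟩ : Nonempty (↥T ↪ Fin 3) := by
    apply Function.Embedding.nonempty_of_card_le
    simpa using hT
  have hdT' : ∀ i ∈ T, mm i ≤ d + 1 := fun i hi => by have := hdT i hi; omega
  apply tri_of_emb mm T f d hdT' hpair
  have key : ∀ j, (2 * p + 1) * M + slotv mm T f j ≤ d := by
    intro j
    have := slotv_le mm T f (d - (2 * p + 1) * M) (fun i hi => by have := hdT i hi; omega) j
    omega
  have hpr := slotv_pair mm T f (d + 1) hdT' hpair
  apply zed_three p m s M d _ h7 hM _ _ _ _ _ (key 0) (key 1) (key 2) (hpr 0 1 (by decide))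
    (hpr 0 2 (by decide)) (hpr 1 2 (by decide))
  · intro i
    split_ifs with h
    · exact Nat.zero_le _
    · exact hmm i h
  · refine le_trans (Finset.card_le_card ?_) hs
    intro i hi
    rw [Finset.mem_filter] at hi ⊢
    have h2 := hi.2
    split_ifs at h2 with h
    · omega
    · exact ⟨hi.1, h, h2⟩

end Pool.MP_70e04f_ag.Hex
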