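import Pool.Agent.Lib_MP_70e04f_hex.Two
import Pool.Agent.Lib_MP_70e04f_hex.Three

/-!
# From real points to general complex points, and smaller degrees
-/

open MvPolynomial

namespace Pool.MP_70e04f_ag.Hex

/-- The expected dimension at general points. -/
def GenExp {n : ℕ} (d : ℕ) (mm : Fin n → ℕ) : Prop :=
  ∃ g : MvPolynomial (Fin n × Fin 2) ℂ, g ≠ 0 ∧
    ∀ p : Fin n → Fin 2 → ℂ,
      MvPolynomial.eval (fun q : Fin n × Fin 2 => p q.1 q.2) g ≠ 0 →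
        ((2 : ℤ) * ((Module.finrank ℂ
            ↥(MvPolynomial.restrictTotalDegree (Fin 2) ℂ d ⊓
              ⨅ i : Fin n, Submodule.restrictScalars ℂ
                ((RingHom.ker (MvPolynomial.eval (p i)) :
                    Ideal (MvPolynomial (Fin 2) ℂ)) ^ mm i)) : ℕ) : ℤ)
          = max 0 (((d : ℤ) + 1) * ((d : ℤ) + 2) -
              ∑ i, (mm i : ℤ) * ((mm i : ℤ) + 1)))

lemma genExp_of_OK {n : ℕ} (d : ℕ) (mm : Fin n → ℕ) (h : OK (tri (d + 1)) mm) : GenExp d mm := by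
  apply generic_of_real
  obtain ⟨p, hp⟩ := h
  exact ⟨p, hp⟩

/-- Emptiness in degree `d` gives emptiness in smaller degrees. -/
lemma GenExp.le {n : ℕ} {d D : ℕ} {mm : Fin n → ℕ} (h : GenExp d mm) (hD : D ≤ d)
    (hT : (d + 1) * (d + 2) ≤ ∑ i, mm i * (mm i + 1)) : GenExp D mm := by
  obtain ⟨g, hg0, hg⟩ := h
  refine ⟨g, hg0, fun p hp => ?_⟩
  have h1 := hg p hp
  have hT' : (((d + 1) * (d + 2) : ℕ) : ℤ) ≤ ∑ i, (mm i : ℤ) * ((mm i : ℤ) + 1) := by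
    have : (((d + 1) * (d + 2) : ℕ) : ℤ) ≤ ((∑ i, mm i * (mm i + 1) : ℕ) : ℤ) := by
      exact_mod_cast hT
    push_cast at this ⊢
    exact this
  have e2 : ((d : ℤ) + 1) * ((d : ℤ) + 2) - ∑ i, (mm i : ℤ) * ((mm i : ℤ) + 1) ≤ 0 := by
    push_cast at hT'
    linarith
  rw [max_eq_left e2] at h1
  have hle : MvPolynomial.restrictTotalDegree (Fin 2) ℂ D ⊓
      ⨅ i : Fin n, Submodule.restrictScalars ℂ
        ((RingHom.ker (MvPolynomial.eval (p i)) :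
          Ideal (MvPolynomial (Fin 2) ℂ)) ^ mm i) ≤
      MvPolynomial.restrictTotalDegree (Fin 2) ℂ d ⊓
      ⨅ i : Fin n, Submodule.restrictScalars ℂ
        ((RingHom.ker (MvPolynomial.eval (p i)) :
          Ideal (MvPolynomial (Fin 2) ℂ)) ^ mm i) := by
    apply inf_le_inf_right
    intro f hf
    rw [MvPolynomial.mem_restrictTotalDegree] at hf ⊢
    omega
  have : Module.Finite ℂ ↥(MvPolynomial.restrictTotalDegree (Fin 2) ℂ d ⊓
      ⨅ i : Fin n, Submodule.restrictScalars ℂ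
        ((RingHom.ker (MvPolynomial.eval (p i)) :
          Ideal (MvPolynomial (Fin 2) ℂ)) ^ mm i)) :=
    Submodule.finiteDimensional_inf_left _ _
  have h2 := Submodule.finrank_mono hle
  have e3 : ((D : ℤ) + 1) * ((D : ℤ) + 2) - ∑ i, (mm i : ℤ) * ((mm i : ℤ) + 1) ≤ 0 := by
    have h3 : (D + 1) * (D + 2) ≤ (d + 1) * (d + 2) := Nat.mul_le_mul (by omega) (by omega)
    have h4 : (((D + 1) * (D + 2) : ℕ) : ℤ) ≤ (((d + 1) * (d + 2) : ℕ) : ℤ) := by exact_mod_cast h3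
    push_cast at h4 hT'
    linarith
  rw [max_eq_left e3]
  omega

/-- Three arbitrary multiplicities. -/
theorem gen_three (n p m s M d D : ℕ) (mm : Fin n → ℕ) (T : Finset (Fin n))
    (hT : T.card ≤ 3) (h7 : 7 * m + s < 2 * p * (p + 1)) (hM : 2 * m + 1 ≤ M)
    (hmm : ∀ i, i ∉ T → mm i ≤ M)
    (hs : (Finset.univ.filter (fun i => i ∉ T ∧ m < mm i)).card ≤ s)
    (hd : (2 * p + 1) * M ≤ d) (hdT : ∀ i ∈ T, mm i + (2 * p + 1) * M ≤ d)
    (hpair : ∀ i ∈ T, ∀ j ∈ T, i ≠ j → mm i + mm j ≤ d + 1)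
    (hD : D = d ∨ D ≤ d ∧ (d + 1) * (d + 2) ≤ ∑ i, mm i * (mm i + 1)) : GenExp D mm := by
  have h := genExp_of_OK d mm (tri_three p m s M d mm T hT h7 hM hmm hs hd hdT hpair)
  rcases hD with rfl | ⟨h1, h2⟩
  · exact h
  · exact h.le h1 h2

/-- Two arbitrary multiplicities. -/
theorem gen_two (n k m s M d D : ℕ) (mm : Fin n → ℕ) (T : Finset (Fin n))
    (hT : T.card ≤ 2) (h7 : 7 * m + s < k ^ 2) (h7' : 7 * m + s + T.card ≤ k ^ 2)
    (hM : 2 * m ≤ M) (hmm : ∀ i, i ∉ T → mm i ≤ M)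
    (hs : (Finset.univ.filter (fun i => i ∉ T ∧ m < mm i)).card ≤ s)
    (hd : k * (M + 1) ≤ d + 1) (hdT : ∀ i ∈ T, mm i + k * (M + 1) ≤ d + 1)
    (hpair : ∀ i ∈ T, ∀ j ∈ T, i ≠ j → mm i + mm j ≤ d + 1)
    (hD : D = d ∨ D ≤ d ∧ (d + 1) * (d + 2) ≤ ∑ i, mm i * (mm i + 1)) : GenExp D mm := by
  have h := genExp_of_OK d mm (tri_two k m s M d mm T hT h7 h7' hM hmm hs hd hdT hpair)
  rcases hD with rfl | ⟨h1, h2⟩
  · exact h
  · exact h.le h1 h2

end Pool.MP_70e04f_ag.Hex
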