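import Pool.Agent.Lib_MP_70e04f_hex.Defs

/-!
# The number of points of the hexagon (piece CARDHEX)

PAPER PROOF of `card_hex`. The box `a ≤ A`, `b ≤ B` has `(A + 1) (B + 1)` points. The removed
corners `{a + b < g}` and `{(A - a) + (B - b) < e}` are disjoint as `g + e ≤ A + B + 1`
(`g - 1 + e - 1 < A + B`). The corner `{a ≤ A, b ≤ B, a + b < g}` has (as `g ≤ B + 1`, so that
`b ≤ B` is automatic) `∑ a ≤ A, (g - a)` (truncated) points, and
`2 ∑ a ≤ A, (g - a) = T2 g - T2 (g - A - 1)`. The other corner is the same by the symmetry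
`(a, b) ↦ (A - a, B - b)`. (Or count column by column:
the column `a` has `B + 1 - (g - a) - (e - (A - a))` points.)

PAPER PROOF of `two_card_hexJ`. `(a, b) ↦ (a - j k, b)` is a bijection from `hexJ k l A B g e j`
onto `hex (A - j k) (B - j l) (g - j l) (e - j l)` (truncated subtractions): with `a' = a - j k`,
the conditions are `a' ≤ A - j k`, `b ≤ B - j l`; `g ≤ a' + b + j k` and `g ≤ a' + b + j l`, the
second implies the first as `l ≤ k`; `a' + b + j k + e ≤ A + B` and `a' + b + j l + e ≤ A + B`, the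
first implies the second, and it says `a' + b + (e - j l) ≤ (A - j k) + (B - j l)`. Then use
`card_hex` (`T2` of a negative number is `0`, so the truncation does not matter).
-/

namespace Pool.MP_70e04f_ag.Hex

/-- The columns. -/
private lemma cardHex_col (A B g e : ℕ) : (hex A B g e).card =
    ∑ a ∈ Finset.range (A + 1), ((B + 1 - (e - (A - a))) - (g - a)) := by
  unfold hex
  rw [Finset.card_filter, Finset.sum_product]
  refine Finset.sum_congr rfl fun a ha => ?_
  rw [Finset.mem_range] at ha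
  rw [← Finset.card_filter]
  have h : (Finset.range (B + 1)).filter (fun b => g ≤ a + b ∧ a + b + e ≤ A + B) =
      Finset.Ico (g - a) (B + 1 - (e - (A - a))) := by
    ext b
    rw [Finset.mem_filter, Finset.mem_range, Finset.mem_Ico]
    omega
  rw [h, Nat.card_Ico]

private lemma cardHex_T2_succ (x : ℤ) : T2 (x + 1) - T2 x = 2 * max (x + 1) 0 := by
  unfold T2
  split_ifs with h1 h2 h3
  · rw [max_eq_left h1]; ring
  · have : x = -1 := by omega
    subst this
    norm_num
  · omega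
  · rw [max_eq_right (by omega)]; ring

/-- The sum of the truncated differences. -/
private lemma cardHex_sum (g n : ℕ) : 2 * ∑ a ∈ Finset.range n, ((g - a : ℕ) : ℤ) =
    T2 g - T2 ((g : ℤ) - n) := by
  induction n with
  | zero => simp
  | succ n ih =>
    rw [Finset.sum_range_succ, mul_add, ih]
    have h := cardHex_T2_succ ((g : ℤ) - (n + 1 : ℕ))
    have h1 : (g : ℤ) - (n + 1 : ℕ) + 1 = (g : ℤ) - n := by push_cast; ring
    rw [h1] at h
    have h2 : ((g - n : ℕ) : ℤ) = max ((g : ℤ) - n) 0 := by omega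
    rw [h2]
    linarith

/-- The number of points of the hexagon. -/
theorem card_hex (A B g e : ℕ) (hAB : A ≤ B) (hg : g ≤ B + 1) (he : e ≤ B + 1)
    (hge : g + e ≤ A + B + 1) : 2 * ((hex A B g e).card : ℤ) = F2 A B g e := by
  rw [cardHex_col]
  push_cast
  have h1 : ∑ a ∈ Finset.range (A + 1), (((B + 1 - (e - (A - a)) - (g - a) : ℕ)) : ℤ) =
      ∑ a ∈ Finset.range (A + 1), (((B : ℤ) + 1) - ((e - (A + 1 - 1 - a) : ℕ) : ℤ) -
        ((g - a : ℕ) : ℤ)) := by
    refine Finset.sum_congr rfl fun a ha => ?_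
    rw [Finset.mem_range] at ha
    omega
  rw [h1, Finset.sum_sub_distrib, Finset.sum_sub_distrib,
    Finset.sum_range_reflect (fun a => ((e - a : ℕ) : ℤ)) (A + 1), Finset.sum_const,
    Finset.card_range, nsmul_eq_mul, mul_sub, mul_sub, cardHex_sum, cardHex_sum]
  unfold F2
  have h2 : (g : ℤ) - (A + 1 : ℕ) = (g : ℤ) - A - 1 := by push_cast; ring
  have h3 : (e : ℤ) - (A + 1 : ℕ) = (e : ℤ) - A - 1 := by push_cast; ring
  rw [h2, h3]
  push_cast
  ring

private lemma cardHex_T2_neg {x : ℤ} (h : x < 0) : T2 x = 0 := by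
  unfold T2
  rw [if_neg (by omega)]

private lemma cardHex_bij' (A B g e K L : ℕ) (hL : L ≤ K) (hAB : A ≤ B) (hj : K ≤ A) :
    ((hex A B g e).filter (fun q => K ≤ q.1 ∧ (q.1 - K, q.2 + L) ∈ hex A B g e)).card =
      (hex (A - K) (B - L) (g - L) (e - L)).card := by
  refine Finset.card_bij' (fun q _ => (q.1 - K, q.2)) (fun q _ => (q.1 + K, q.2)) ?_ ?_ ?_ ?_
  · intro q hq
    rw [Finset.mem_filter, mem_hex, mem_hex] at hq
    rw [mem_hex]
    dsimp only at hq ⊢
    omega
  · intro q hq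
    rw [mem_hex] at hq
    rw [Finset.mem_filter, mem_hex, mem_hex]
    dsimp only
    omega
  · intro q hq
    rw [Finset.mem_filter] at hq
    apply Prod.ext
    · dsimp only
      omega
    · rfl
  · intro q _
    apply Prod.ext
    · dsimp only
      omega
    · rfl

private lemma cardHex_T2_nat (g L : ℕ) : T2 ((g - L : ℕ) : ℤ) = T2 ((g : ℤ) - L) := by
  by_cases h : L ≤ g
  · rw [Nat.cast_sub h]
  · have h1 : g - L = 0 := by omega
    rw [h1, cardHex_T2_neg (by omega : (g : ℤ) - L < 0)]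
    simp [T2]

private lemma cardHex_T2_nat' (g L : ℕ) {x : ℤ} (hx : 0 ≤ x) :
    T2 (((g - L : ℕ) : ℤ) - x - 1) = T2 ((g : ℤ) - L - x - 1) := by
  by_cases h : L ≤ g
  · rw [Nat.cast_sub h]
  · have h1 : g - L = 0 := by omega
    rw [h1, cardHex_T2_neg (by omega : (g : ℤ) - L - x - 1 < 0), cardHex_T2_neg (by
      push_cast
      omega)]

private lemma cardHex_two (A B g e K L : ℕ) (hL : L ≤ K) (hAB : A ≤ B) (hj : K ≤ A)
    (hg : g ≤ B + 1) (he : e ≤ B + 1) (hdis : g + e + K ≤ A + B + 1 + L) :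
    2 * (((hex (A - K) (B - L) (g - L) (e - L)).card : ℕ) : ℤ) =
      F2 ((A : ℤ) - K) ((B : ℤ) - L) ((g : ℤ) - L) ((e : ℤ) - L) := by
  rw [card_hex (A - K) (B - L) (g - L) (e - L) (by omega) (by omega) (by omega) (by omega)]
  unfold F2
  rw [cardHex_T2_nat, cardHex_T2_nat, Nat.cast_sub hj, Nat.cast_sub (by omega : L ≤ B),
    cardHex_T2_nat' g L (by omega : (0 : ℤ) ≤ (A : ℤ) - K),
    cardHex_T2_nat' e L (by omega : (0 : ℤ) ≤ (A : ℤ) - K)]

/-- The number of points of the shrunken hexagon. -/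
theorem two_card_hexJ (k l A B g e j : ℕ) (hlk : l ≤ k) (hAB : A ≤ B) (hj : j * k ≤ A)
    (hg : g ≤ B + 1) (he : e ≤ B + 1) (hdis : g + e + j * k ≤ A + B + 1 + j * l) :
    2 * ((hexJ k l A B g e j).card : ℤ) =
      F2 ((A : ℤ) - j * k) ((B : ℤ) - j * l) ((g : ℤ) - j * l) ((e : ℤ) - j * l) := by
  have hL : j * l ≤ j * k := Nat.mul_le_mul_left j hlk
  have h1 : (hexJ k l A B g e j).card =
      (hex (A - j * k) (B - j * l) (g - j * l) (e - j * l)).card :=
    cardHex_bij' A B g e (j * k) (j * l) hL hAB hj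
  rw [h1, cardHex_two A B g e (j * k) (j * l) hL hAB hj hg he hdis]
  push_cast
  rfl

/-- Beyond the last row. -/
theorem card_hexJ_zero (k l A B g e j : ℕ) (h : A < j * k) : (hexJ k l A B g e j).card = 0 := by
  rw [Finset.card_eq_zero, Finset.eq_empty_iff_forall_notMem]
  intro q hq
  unfold hexJ at hq
  rw [Finset.mem_filter, mem_hex] at hq
  omega

end Pool.MP_70e04f_ag.Hex
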