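import Pool.Agent.Lib_MP_70e04f_hex.Pos

/-!
# Affine change of the exponents (piece CHANGE)

PAPER PROOF. By `OK.pos` there are points `p' i = (x', y')` with positive coordinates and
`Good (condP P' m p')`. Put `p i = ![x' ^ u1 * y' ^ v1, x' ^ u2 * y' ^ v2]` (real powers,
`Real.rpow`), so that for `q ∈ P`, `(a', b') = e q`:
`(p i 0) ^ q.1 * (p i 1) ^ q.2 = x' ^ (a' - u0) * y' ^ (b' - v0)`.

CLAIM: if `v ∈ ker (condP P m p)` then `v ∘ e.symm ∈ ker (condP P' m p')`. As `e` is a bijection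
this gives `finrank (ker (condP P m p)) ≤ finrank (ker (condP P' m p'))`, and the cardinalities
of `P`, `P'` agree, so `Good` follows.

Proof of the claim. `ec x y a b α β = choose a α * x ^ (a - α) * (choose b β * y ^ (b - β))`
(`Polynomial.coeff_X_add_C_pow`). For positive `x, y` the conditions on `v` at the point `i` say
`∑ q, v q * (choose q.1 α * choose q.2 β) * x ^ q.1 * y ^ q.2 = 0` for all `α + β < m i`.
Let `Bin M` be the real span of the functions `q ↦ choose q.1 α * choose q.2 β` on `ℕ × ℕ`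
with `α + β < M`. From `a * choose a α = (α + 1) * choose a (α + 1) + α * choose a α` one gets:
the product of an affine function `q ↦ s0 + s1 * q.1 + s2 * q.2` with an element of `Bin M` lies
in `Bin (M + 1)`. Hence a product of `α + β` affine functions lies in `Bin (α + β + 1)`. Now for
`q ∈ P`, `α! * β! * choose a' α * choose b' β = ∏ i < α, (a' - i) * ∏ i < β, (b' - i)` where
`a' = u0 + u1 * q.1 + u2 * q.2`, `b' = v0 + v1 * q.1 + v2 * q.2`: it is the restriction to `P` of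
an element of `Bin (α + β + 1)`. Therefore
`∑ q, v q * choose a' α * choose b' β * x ^ q.1 * y ^ q.2 = 0`, and multiplying by
`x' ^ u0 * y' ^ v0 * x' ^ (-α) * y' ^ (-β)` one gets the condition `(i, (α, β))` of
`condP P' m p'` for `v ∘ e.symm`.
-/

namespace Pool.MP_70e04f_ag.Hex

namespace ChangeAux

/-- The span of the binomial functions of degree `< M` on `P`. -/
def Bin (P : Finset (ℕ × ℕ)) (M : ℕ) : Submodule ℝ (↥P → ℝ) :=
  Submodule.span ℝ {g | ∃ α β : ℕ, α + β < M ∧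
    g = fun q : ↥P => (Nat.choose q.1.1 α : ℝ) * (Nat.choose q.1.2 β : ℝ)}

lemma Bin_mono {P : Finset (ℕ × ℕ)} {M N : ℕ} (h : M ≤ N) : Bin P M ≤ Bin P N := by
  apply Submodule.span_mono
  rintro g ⟨α, β, hab, rfl⟩
  exact ⟨α, β, by omega, rfl⟩

lemma choose_rec (a α : ℕ) : (a : ℝ) * (Nat.choose a α : ℝ) =
    (α + 1 : ℝ) * (Nat.choose a (α + 1) : ℝ) + α * (Nat.choose a α : ℝ) := by
  rcases le_or_gt α a with h | h
  · have h1 := Nat.choose_succ_right_eq a α
    have h2 : ((Nat.choose a (α + 1) : ℕ) : ℝ) * (α + 1) = (Nat.choose a α : ℝ) * (a - α) := by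
      have h3 : ((Nat.choose a (α + 1) * (α + 1) : ℕ) : ℝ) =
          ((Nat.choose a α * (a - α) : ℕ) : ℝ) := by rw [h1]
      rw [Nat.cast_mul, Nat.cast_mul, Nat.cast_sub h] at h3
      push_cast at h3
      exact h3
    linear_combination -h2
  · rw [Nat.choose_eq_zero_of_lt h, Nat.choose_eq_zero_of_lt (by omega)]
    simp

lemma mul_one' {P : Finset (ℕ × ℕ)} {M : ℕ} {g : ↥P → ℝ} (hg : g ∈ Bin P M) :
    (fun q : ↥P => (q.1.1 : ℝ) * g q) ∈ Bin P (M + 1) := by
  unfold Bin at hg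
  induction hg using Submodule.span_induction with
  | mem g hg =>
    obtain ⟨α, β, hab, rfl⟩ := hg
    have h1 : (fun q : ↥P => (q.1.1 : ℝ) *
        ((Nat.choose q.1.1 α : ℝ) * (Nat.choose q.1.2 β : ℝ))) =
        (α + 1 : ℝ) • (fun q : ↥P => (Nat.choose q.1.1 (α + 1) : ℝ) *
          (Nat.choose q.1.2 β : ℝ)) +
        (α : ℝ) • (fun q : ↥P => (Nat.choose q.1.1 α : ℝ) * (Nat.choose q.1.2 β : ℝ)) := by
      funext q
      simp only [Pi.add_apply, Pi.smul_apply, smul_eq_mul]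
      linear_combination (Nat.choose q.1.2 β : ℝ) * choose_rec q.1.1 α
    rw [h1]
    apply Submodule.add_mem
    · apply Submodule.smul_mem
      exact Submodule.subset_span ⟨α + 1, β, by omega, rfl⟩
    · apply Submodule.smul_mem
      exact Submodule.subset_span ⟨α, β, by omega, rfl⟩
  | zero =>
    have h1 : (fun q : ↥P => (q.1.1 : ℝ) * (0 : ↥P → ℝ) q) = 0 := by
      funext q
      simp
    rw [h1]
    exact Submodule.zero_mem _
  | add f g _ _ hf hg =>
    have h1 : (fun q : ↥P => (q.1.1 : ℝ) * (f + g) q) =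
        (fun q : ↥P => (q.1.1 : ℝ) * f q) + (fun q : ↥P => (q.1.1 : ℝ) * g q) := by
      funext q
      simp only [Pi.add_apply]
      ring
    rw [h1]
    exact Submodule.add_mem _ hf hg
  | smul r f _ hf =>
    have h1 : (fun q : ↥P => (q.1.1 : ℝ) * (r • f) q) =
        r • (fun q : ↥P => (q.1.1 : ℝ) * f q) := by
      funext q
      simp only [Pi.smul_apply, smul_eq_mul]
      ring
    rw [h1]
    exact Submodule.smul_mem _ _ hf

lemma mul_two' {P : Finset (ℕ × ℕ)} {M : ℕ} {g : ↥P → ℝ} (hg : g ∈ Bin P M) :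
    (fun q : ↥P => (q.1.2 : ℝ) * g q) ∈ Bin P (M + 1) := by
  unfold Bin at hg
  induction hg using Submodule.span_induction with
  | mem g hg =>
    obtain ⟨α, β, hab, rfl⟩ := hg
    have h1 : (fun q : ↥P => (q.1.2 : ℝ) *
        ((Nat.choose q.1.1 α : ℝ) * (Nat.choose q.1.2 β : ℝ))) =
        (β + 1 : ℝ) • (fun q : ↥P => (Nat.choose q.1.1 α : ℝ) *
          (Nat.choose q.1.2 (β + 1) : ℝ)) +
        (β : ℝ) • (fun q : ↥P => (Nat.choose q.1.1 α : ℝ) * (Nat.choose q.1.2 β : ℝ)) := by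
      funext q
      simp only [Pi.add_apply, Pi.smul_apply, smul_eq_mul]
      linear_combination (Nat.choose q.1.1 α : ℝ) * choose_rec q.1.2 β
    rw [h1]
    apply Submodule.add_mem
    · apply Submodule.smul_mem
      exact Submodule.subset_span ⟨α, β + 1, by omega, rfl⟩
    · apply Submodule.smul_mem
      exact Submodule.subset_span ⟨α, β, by omega, rfl⟩
  | zero =>
    have h1 : (fun q : ↥P => (q.1.2 : ℝ) * (0 : ↥P → ℝ) q) = 0 := by
      funext q
      simp
    rw [h1]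
    exact Submodule.zero_mem _
  | add f g _ _ hf hg =>
    have h1 : (fun q : ↥P => (q.1.2 : ℝ) * (f + g) q) =
        (fun q : ↥P => (q.1.2 : ℝ) * f q) + (fun q : ↥P => (q.1.2 : ℝ) * g q) := by
      funext q
      simp only [Pi.add_apply]
      ring
    rw [h1]
    exact Submodule.add_mem _ hf hg
  | smul r f _ hf =>
    have h1 : (fun q : ↥P => (q.1.2 : ℝ) * (r • f) q) =
        r • (fun q : ↥P => (q.1.2 : ℝ) * f q) := by
      funext q
      simp only [Pi.smul_apply, smul_eq_mul]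
      ring
    rw [h1]
    exact Submodule.smul_mem _ _ hf

lemma mul_affine {P : Finset (ℕ × ℕ)} {M : ℕ} {g : ↥P → ℝ} (hg : g ∈ Bin P M)
    (s0 s1 s2 : ℝ) :
    (fun q : ↥P => (s0 + s1 * (q.1.1 : ℝ) + s2 * (q.1.2 : ℝ)) * g q) ∈ Bin P (M + 1) := by
  have h1 : (fun q : ↥P => (s0 + s1 * (q.1.1 : ℝ) + s2 * (q.1.2 : ℝ)) * g q) =
      s0 • g + s1 • (fun q : ↥P => (q.1.1 : ℝ) * g q) +
        s2 • (fun q : ↥P => (q.1.2 : ℝ) * g q) := by
    funext q
    simp only [Pi.add_apply, Pi.smul_apply, smul_eq_mul]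
    ring
  rw [h1]
  exact Submodule.add_mem _ (Submodule.add_mem _
    (Submodule.smul_mem _ _ (Bin_mono (Nat.le_succ M) hg))
    (Submodule.smul_mem _ _ (mul_one' hg))) (Submodule.smul_mem _ _ (mul_two' hg))

/-- Multiplication by the binomial function of an affine function. -/
lemma mul_choose {P : Finset (ℕ × ℕ)} {M : ℕ} {g : ↥P → ℝ} (hg : g ∈ Bin P M)
    (c : ↥P → ℕ) (s0 s1 s2 : ℝ)
    (hc : ∀ q : ↥P, (c q : ℝ) = s0 + s1 * (q.1.1 : ℝ) + s2 * (q.1.2 : ℝ)) (α : ℕ) :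
    (fun q : ↥P => (Nat.choose (c q) α : ℝ) * g q) ∈ Bin P (M + α) := by
  induction α with
  | zero => simpa using hg
  | succ α ih =>
    have h1 := mul_affine ih (s0 - α) s1 s2
    have h2 : (fun q : ↥P => (Nat.choose (c q) (α + 1) : ℝ) * g q) =
        ((α + 1 : ℝ)⁻¹) • (fun q : ↥P => (s0 - α + s1 * (q.1.1 : ℝ) + s2 * (q.1.2 : ℝ)) *
          ((Nat.choose (c q) α : ℝ) * g q)) := by
      funext q
      have h3 := choose_rec (c q) α
      rw [hc q] at h3
      have h4 : (α + 1 : ℝ) ≠ 0 := by positivity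
      simp only [Pi.smul_apply, smul_eq_mul]
      rw [eq_inv_mul_iff_mul_eq₀ h4]
      linear_combination -g q * h3
    rw [h2]
    exact Submodule.smul_mem _ _ h1

lemma one_mem (P : Finset (ℕ × ℕ)) : (fun _ : ↥P => (1 : ℝ)) ∈ Bin P 1 := by
  apply Submodule.subset_span
  exact ⟨0, 0, by omega, by funext q; simp⟩

/-- The entry of the matrix of conditions for positive coordinates. -/
lemma ec_pos {x y : ℝ} (hx : 0 < x) (hy : 0 < y) (a b α β : ℕ) :
    ec x y a b α β * (x ^ α * y ^ β) =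
      (Nat.choose a α : ℝ) * (Nat.choose b β : ℝ) * (x ^ a * y ^ b) := by
  have key : ∀ (z : ℝ) (n k : ℕ),
      ((Polynomial.X + Polynomial.C z) ^ n : Polynomial ℝ).coeff k * z ^ k =
        (Nat.choose n k : ℝ) * z ^ n := by
    intro z n k
    rw [Polynomial.coeff_X_add_C_pow]
    rcases le_or_gt k n with h | h
    · have h1 : z ^ (n - k) * z ^ k = z ^ n := by rw [← pow_add, Nat.sub_add_cancel h]
      linear_combination (Nat.choose n k : ℝ) * h1
    · rw [Nat.choose_eq_zero_of_lt h]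
      simp
  unfold ec
  have h1 := key x a α
  have h2 := key y b β
  calc ((Polynomial.X + Polynomial.C x) ^ a : Polynomial ℝ).coeff α *
        ((Polynomial.X + Polynomial.C y) ^ b : Polynomial ℝ).coeff β * (x ^ α * y ^ β)
      = (((Polynomial.X + Polynomial.C x) ^ a : Polynomial ℝ).coeff α * x ^ α) *
        (((Polynomial.X + Polynomial.C y) ^ b : Polynomial ℝ).coeff β * y ^ β) := by ring
    _ = ((Nat.choose a α : ℝ) * x ^ a) * ((Nat.choose b β : ℝ) * y ^ b) := by rw [h1, h2]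
    _ = _ := by ring

end ChangeAux

open ChangeAux

/-- A bijection of the exponents that is the restriction of an affine map preserves `OK`. -/
theorem OK.change {ι : Type*} [Fintype ι] {P P' : Finset (ℕ × ℕ)} (e : ↥P ≃ ↥P')
    (u0 u1 u2 v0 v1 v2 : ℝ)
    (h1 : ∀ q : ↥P, (((e q).1.1 : ℕ) : ℝ) = u0 + u1 * (q.1.1 : ℝ) + u2 * (q.1.2 : ℝ))
    (h2 : ∀ q : ↥P, (((e q).1.2 : ℕ) : ℝ) = v0 + v1 * (q.1.1 : ℝ) + v2 * (q.1.2 : ℝ))
    {m : ι → ℕ} (h : OK P' m) : OK P m := by
  classical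
  obtain ⟨p', hp', hg⟩ := h.pos
  set p : ι → Fin 2 → ℝ := fun i =>
    ![p' i 0 ^ u1 * p' i 1 ^ v1, p' i 0 ^ u2 * p' i 1 ^ v2] with hp
  have hp0 : ∀ i, p i 0 = p' i 0 ^ u1 * p' i 1 ^ v1 := fun i => rfl
  have hp1 : ∀ i, p i 1 = p' i 0 ^ u2 * p' i 1 ^ v2 := fun i => rfl
  have hp0' : ∀ i, 0 < p i 0 := fun i =>
    mul_pos (Real.rpow_pos_of_pos (hp' i 0) _) (Real.rpow_pos_of_pos (hp' i 1) _)
  have hp1' : ∀ i, 0 < p i 1 := fun i =>
    mul_pos (Real.rpow_pos_of_pos (hp' i 0) _) (Real.rpow_pos_of_pos (hp' i 1) _)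
  -- the monomials
  have hmon : ∀ (i : ι) (q : ↥P), p' i 0 ^ (e q).1.1 * p' i 1 ^ (e q).1.2 =
      (p' i 0 ^ u0 * p' i 1 ^ v0) * (p i 0 ^ q.1.1 * p i 1 ^ q.1.2) := by
    intro i q
    have hx := hp' i 0
    have hy := hp' i 1
    rw [hp0 i, hp1 i, ← Real.rpow_natCast (p' i 0) (e q).1.1,
      ← Real.rpow_natCast (p' i 1) (e q).1.2, h1 q, h2 q, mul_pow, mul_pow,
      ← Real.rpow_mul_natCast hx.le, ← Real.rpow_mul_natCast hy.le,
      ← Real.rpow_mul_natCast hx.le, ← Real.rpow_mul_natCast hy.le,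
      Real.rpow_add hx, Real.rpow_add hx, Real.rpow_add hy, Real.rpow_add hy]
    ring
  refine ⟨p, ?_⟩
  set A : Matrix (Σ i : ι, ↥(tri (m i))) ↥P ℝ := condP P m p with hA
  set A' : Matrix (Σ i : ι, ↥(tri (m i))) ↥P' ℝ := condP P' m p' with hA'
  have hker : ∀ v : ↥P → ℝ, v ∈ LinearMap.ker A.mulVecLin →
      (fun q' : ↥P' => v (e.symm q')) ∈ LinearMap.ker A'.mulVecLin := by
    intro v hv
    have hv' : A.mulVec v = 0 := hv
    show A'.mulVec (fun q' : ↥P' => v (e.symm q')) = 0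
    funext c
    obtain ⟨i, ⟨α, β⟩, hab⟩ := c
    have hab' : α + β < m i := mem_tri.1 hab
    -- the functional
    let Lf : (↥P → ℝ) →ₗ[ℝ] ℝ :=
      { toFun := fun g => ∑ q : ↥P, v q * g q * (p i 0 ^ q.1.1 * p i 1 ^ q.1.2)
        map_add' := by
          intro f g
          rw [← Finset.sum_add_distrib]
          refine Finset.sum_congr rfl fun q _ => ?_
          simp only [Pi.add_apply]
          ring
        map_smul' := by
          intro r f
          simp only [RingHom.id_apply, smul_eq_mul, Finset.mul_sum]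
          refine Finset.sum_congr rfl fun q _ => ?_
          simp only [Pi.smul_apply, smul_eq_mul]
          ring }
    have hL : Bin P (m i) ≤ LinearMap.ker Lf := by
      unfold Bin
      rw [Submodule.span_le]
      rintro g ⟨γ, δ, hgd, rfl⟩
      show ∑ q : ↥P, v q * ((Nat.choose q.1.1 γ : ℝ) * (Nat.choose q.1.2 δ : ℝ)) *
        (p i 0 ^ q.1.1 * p i 1 ^ q.1.2) = 0
      have h3 := congrFun hv' ⟨i, ⟨(γ, δ), mem_tri.2 hgd⟩⟩
      have h4 : ∑ q : ↥P, ec (p i 0) (p i 1) q.1.1 q.1.2 γ δ * v q = 0 := h3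
      have h5 : ∑ q : ↥P, v q * ((Nat.choose q.1.1 γ : ℝ) * (Nat.choose q.1.2 δ : ℝ)) *
          (p i 0 ^ q.1.1 * p i 1 ^ q.1.2) =
          (p i 0 ^ γ * p i 1 ^ δ) * ∑ q : ↥P, ec (p i 0) (p i 1) q.1.1 q.1.2 γ δ * v q := by
        rw [Finset.mul_sum]
        refine Finset.sum_congr rfl fun q _ => ?_
        linear_combination (-v q) * ec_pos (hp0' i) (hp1' i) q.1.1 q.1.2 γ δ
      rw [h5, h4, mul_zero]
    have hF : (fun q : ↥P => (Nat.choose (e q).1.1 α : ℝ) *
        ((Nat.choose (e q).1.2 β : ℝ) * 1)) ∈ Bin P (m i) := by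
      have h3 := mul_choose (mul_choose (one_mem P) (fun q => (e q).1.2) v0 v1 v2 h2 β)
        (fun q => (e q).1.1) u0 u1 u2 h1 α
      exact Bin_mono (by omega) h3
    have h3 : ∑ q : ↥P, v q * ((Nat.choose (e q).1.1 α : ℝ) *
        ((Nat.choose (e q).1.2 β : ℝ) * 1)) * (p i 0 ^ q.1.1 * p i 1 ^ q.1.2) = 0 := hL hF
    have h4 : A'.mulVec (fun q' : ↥P' => v (e.symm q')) ⟨i, ⟨(α, β), hab⟩⟩ =
        ∑ q : ↥P, ec (p' i 0) (p' i 1) (e q).1.1 (e q).1.2 α β * v q := by
      show ∑ q' : ↥P', ec (p' i 0) (p' i 1) q'.1.1 q'.1.2 α β * v (e.symm q') = _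
      rw [← Equiv.sum_comp e]
      refine Finset.sum_congr rfl fun q _ => ?_
      rw [Equiv.symm_apply_apply]
    have h5 : (∑ q : ↥P, ec (p' i 0) (p' i 1) (e q).1.1 (e q).1.2 α β * v q) *
        (p' i 0 ^ α * p' i 1 ^ β) = (p' i 0 ^ u0 * p' i 1 ^ v0) *
        ∑ q : ↥P, v q * ((Nat.choose (e q).1.1 α : ℝ) *
        ((Nat.choose (e q).1.2 β : ℝ) * 1)) * (p i 0 ^ q.1.1 * p i 1 ^ q.1.2) := by
      rw [Finset.sum_mul, Finset.mul_sum]
      refine Finset.sum_congr rfl fun q _ => ?_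
      linear_combination v q * ec_pos (hp' i 0) (hp' i 1) (e q).1.1 (e q).1.2 α β +
        v q * (Nat.choose (e q).1.1 α : ℝ) * (Nat.choose (e q).1.2 β : ℝ) * hmon i q
    rw [h3, mul_zero] at h5
    have h6 : p' i 0 ^ α * p' i 1 ^ β ≠ 0 :=
      (mul_pos (pow_pos (hp' i 0) α) (pow_pos (hp' i 1) β)).ne'
    rw [h4]
    exact (mul_eq_zero.mp h5).resolve_right h6
  let f : LinearMap.ker A.mulVecLin →ₗ[ℝ] LinearMap.ker A'.mulVecLin :=
    { toFun := fun v => ⟨fun q' => v.1 (e.symm q'), hker v.1 v.2⟩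
      map_add' := fun _ _ => rfl
      map_smul' := fun _ _ => rfl }
  have hf : Function.Injective f := by
    intro v w hvw
    apply Subtype.ext
    funext q
    have h3 := congrFun (congrArg (fun z : LinearMap.ker A'.mulVecLin => z.1) hvw) (e q)
    have h4 : v.1 (e.symm (e q)) = w.1 (e.symm (e q)) := h3
    rwa [Equiv.symm_apply_apply] at h4
  have h3 := LinearMap.finrank_le_finrank_of_injective hf
  have h4 : Fintype.card ↥P = Fintype.card ↥P' := Fintype.card_congr e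
  unfold Good at hg ⊢
  rw [h4]
  exact h3.trans hg

end Pool.MP_70e04f_ag.Hex
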