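import Pool.Agent.Lib_MP_70e04f_hex.Defs

/-!
# Degeneration of the points to the curve `z = 1` (piece COMPRESS)

`P` is a set of exponents `(t, r)` whose fibres `{r | (t, r) ∈ P}` are intervals
`[r0 t, r0 t + c t)`, and `Q = {(t, j) | j < c t}`.

PAPER PROOF (compare `Degen.lean` and `real_of_good` in `General.lean`). Let `p i = (x i, u i)` be
good for `Q`. For `ε : R` (`R` a commutative ring with `x, u : ι → R`) let `D ε` be the matrix with
rows `(i, (α, β))`, columns `(t, j) ∈ Q` and entry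
`((X + C (x i)) ^ t).coeff α * ((X + C (u i)) ^ j * (1 + C ε * (X + C (u i))) ^ (r0 t)).coeff β`,
the Taylor coefficient at `(x i, u i)` of `s ^ t * u ^ j * (1 + ε u) ^ (r0 t)`.
(1) `D 0 = condP Q m p` is `Good`; `D ε` is the image of the matrix over `ℝ[ε]`
(`Polynomial ℝ`, evaluation at `ε`), so by `exists_detpoly` there is `ε ≠ 0` with `D ε` good.
(2) For `ε ≠ 0`: `finrank (ker (condP P m (fun i => ![x i, 1 + ε * u i]))) ≤
finrank (ker (D ε))`. Indeed to `v : P → ℝ` associate `w : Q → ℝ`,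
`w (t, j) = ∑ i < c t, choose i j * ε ^ j * v (t, r0 t + i)`; then
`∑ v (t, r) s ^ t (1 + ε u) ^ r = ∑ w (t, j) s ^ t (1 + ε u) ^ (r0 t) u ^ j` as polynomials in
`(s, u)`. `v ↦ w` is linear and injective (if `w = 0` then for every `t` the polynomial
`∑ i < c t, v (t, r0 t + i) (1 + ε u) ^ i` in `u` is zero, so `v = 0` as `ε ≠ 0`). If
`v ∈ ker (condP P ..)` then `w ∈ ker (D ε)`: the Taylor coefficient of index `(α, β)` at
`(x, u)` of `f (s, 1 + ε u)` is `ε ^ β` times the Taylor coefficient at `(x, 1 + ε u)` of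
`f (s, z)`, i.e. `((1 + C ε * (X + C u)) ^ r).coeff β = ε ^ β * ((X + C (1 + ε * u)) ^ r).coeff β`
(both sides are `ε ^ β * choose r β * (1 + ε u) ^ (r - β)`; as polynomials
`1 + C ε * (X + C u) = C ε * X + C (1 + ε * u) = (X + C (1 + ε u)).comp (C ε * X)`).
(3) `card P = card Q = ∑ c t`, so `Good` for `P` follows.
-/

namespace Pool.MP_70e04f_ag.Hex

open Polynomial

namespace CompressAux

/-- The matrix of the conditions in the coordinates `(x, u)`, `z = 1 + ε u`. -/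
noncomputable def degP {R ι : Type*} [CommRing R] (Q : Finset (ℕ × ℕ)) (m : ι → ℕ) (r0 : ℕ → ℕ)
    (x u : ι → R) (ε : R) : Matrix (Σ i : ι, ↥(tri (m i))) ↥Q R :=
  fun c q => ((X + C (x c.1)) ^ q.1.1 : R[X]).coeff c.2.1.1 *
    ((X + C (u c.1)) ^ q.1.2 * (1 + C ε * (X + C (u c.1))) ^ (r0 q.1.1) : R[X]).coeff c.2.1.2

lemma degP_map {R S ι : Type*} [CommRing R] [CommRing S] (Q : Finset (ℕ × ℕ)) (m : ι → ℕ)
    (r0 : ℕ → ℕ) (x u : ι → R) (ε : R) (φ : R →+* S) :
    (degP Q m r0 x u ε).map φ = degP Q m r0 (fun i => φ (x i)) (fun i => φ (u i)) (φ ε) := by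
  ext c q
  simp only [Matrix.map_apply, degP, map_mul]
  rw [← Polynomial.coeff_map, ← Polynomial.coeff_map]
  simp

lemma degP_zero {R ι : Type*} [CommRing R] (Q : Finset (ℕ × ℕ)) (m : ι → ℕ)
    (r0 : ℕ → ℕ) (p : ι → Fin 2 → R) :
    degP Q m r0 (fun i => p i 0) (fun i => p i 1) 0 = condP Q m p := by
  ext c q
  simp [degP, condP, ec]

section
variable {K : Type*} [Field K]

lemma coeff_comp_lin (ε u : K) (r β : ℕ) :
    ((1 + C ε * (X + C u)) ^ r : K[X]).coeff β =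
      ε ^ β * ((X + C (1 + ε * u)) ^ r : K[X]).coeff β := by
  have h : ((1 + C ε * (X + C u)) ^ r : K[X]) = ((X + C (1 + ε * u)) ^ r).comp (C ε * X) := by
    simp only [pow_comp, add_comp, X_comp, C_comp, mul_comp, one_comp, C_add, C_mul, C_1]
    ring
  rw [h, comp_C_mul_X_coeff, mul_comm]

/-- Extension by zero. -/
noncomputable def ext (P : Finset (ℕ × ℕ)) (v : ↥P → K) (q : ℕ × ℕ) : K :=
  if h : q ∈ P then v ⟨q, h⟩ else 0

lemma ext_mem (P : Finset (ℕ × ℕ)) (v : ↥P → K) (q : ↥P) : ext P v q.1 = v q := by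
  unfold ext
  rw [dif_pos q.2]

lemma sum_ext (P : Finset (ℕ × ℕ)) (v : ↥P → K) (f : ℕ × ℕ → K) :
    ∑ q : ↥P, f q.1 * v q = ∑ q ∈ P, f q * ext P v q := by
  rw [← Finset.sum_coe_sort P (fun q => f q * ext P v q)]
  refine Finset.sum_congr rfl fun q _ => ?_
  rw [ext_mem]

/-- The change of coordinates. -/
noncomputable def chg (P Q : Finset (ℕ × ℕ)) (r0 c : ℕ → ℕ) (ε : K) :
    (↥P → K) →ₗ[K] (↥Q → K) where
  toFun v q := ∑ i ∈ Finset.range (c q.1.1), ((i.choose q.1.2 : ℕ) : K) * ε ^ q.1.2 *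
    ext P v (q.1.1, r0 q.1.1 + i)
  map_add' v w := by
    funext q
    simp only [Pi.add_apply]
    rw [← Finset.sum_add_distrib]
    refine Finset.sum_congr rfl fun i _ => ?_
    rw [← mul_add]
    congr 1
    unfold ext
    split_ifs
    · rfl
    · simp
  map_smul' a v := by
    funext q
    simp only [Pi.smul_apply, RingHom.id_apply, smul_eq_mul]
    rw [Finset.mul_sum]
    refine Finset.sum_congr rfl fun i _ => ?_
    have : ext P (a • v) (q.1.1, r0 q.1.1 + i) = a * ext P v (q.1.1, r0 q.1.1 + i) := by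
      unfold ext
      split_ifs
      · rfl
      · simp
    rw [this]
    ring

lemma chg_apply (P Q : Finset (ℕ × ℕ)) (r0 c : ℕ → ℕ) (ε : K) (v : ↥P → K) (q : ↥Q) :
    chg P Q r0 c ε v q = ∑ i ∈ Finset.range (c q.1.1), ((i.choose q.1.2 : ℕ) : K) * ε ^ q.1.2 *
    ext P v (q.1.1, r0 q.1.1 + i) := rfl

lemma chg_injective (P Q : Finset (ℕ × ℕ)) (r0 c : ℕ → ℕ)
    (hP : ∀ t r, (t, r) ∈ P ↔ r0 t ≤ r ∧ r < r0 t + c t)
    (hQ : ∀ t j, (t, j) ∈ Q ↔ j < c t) (ε : K) (hε : ε ≠ 0) :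
    Function.Injective (chg P Q r0 c ε) := by
  rw [← LinearMap.ker_eq_bot, LinearMap.ker_eq_bot']
  intro v hv
  have key : ∀ t k j, c t = j + 1 + k → ext P v (t, r0 t + j) = 0 := by
    intro t k
    induction k using Nat.strong_induction_on with
    | _ k ih =>
      intro j hj
      have h1 : (t, j) ∈ Q := (hQ t j).2 (by omega)
      have h2 := congrFun hv ⟨(t, j), h1⟩
      rw [chg_apply, Finset.sum_eq_single j] at h2
      · simp only [Nat.choose_self, Nat.cast_one, one_mul, Pi.zero_apply] at h2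
        exact (mul_eq_zero.1 h2).resolve_left (pow_ne_zero _ hε)
      · intro i hi hij
        rcases Nat.lt_or_gt_of_ne hij with h3 | h3
        · simp only
          rw [Nat.choose_eq_zero_of_lt h3]
          simp
        · rw [Finset.mem_range] at hi
          simp only at hi
          have h4 := ih (c t - (i + 1)) (by omega) i (by omega)
          simp only
          rw [h4, mul_zero]
      · intro h3
        exact absurd (Finset.mem_range.2 ((hQ t j).1 h1)) h3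
  funext q
  have h1 := (hP q.1.1 q.1.2).1 q.2
  have h2 := key q.1.1 (c q.1.1 - (q.1.2 - r0 q.1.1) - 1) (q.1.2 - r0 q.1.1) (by omega)
  have h3 : r0 q.1.1 + (q.1.2 - r0 q.1.1) = q.1.2 := by omega
  rw [h3] at h2
  have h4 := ext_mem P v q
  rw [← h4]
  exact h2

end

lemma exists_bound (Q : Finset (ℕ × ℕ)) (c : ℕ → ℕ) (hQ : ∀ t j, (t, j) ∈ Q ↔ j < c t) :
    ∃ N : ℕ, ∀ t, N ≤ t → c t = 0 := by
  refine ⟨(Q.sup Prod.fst) + 1, fun t ht => ?_⟩
  by_contra h
  have h1 : (t, 0) ∈ Q := (hQ t 0).2 (Nat.pos_of_ne_zero h)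
  have h2 : t ≤ Q.sup Prod.fst := Finset.le_sup (f := Prod.fst) h1
  omega

lemma sum_Q {M : Type*} [AddCommMonoid M] (Q : Finset (ℕ × ℕ)) (c : ℕ → ℕ)
    (hQ : ∀ t j, (t, j) ∈ Q ↔ j < c t) (N : ℕ) (hN : ∀ t, N ≤ t → c t = 0) (f : ℕ × ℕ → M) :
    ∑ q ∈ Q, f q = ∑ t ∈ Finset.range N, ∑ j ∈ Finset.range (c t), f (t, j) := by
  apply Finset.sum_finset_product
  rintro ⟨t, j⟩
  rw [hQ, Finset.mem_range, Finset.mem_range]
  constructor
  · intro h
    refine ⟨?_, h⟩
    by_contra h1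
    have := hN t (by simp only at h1; omega)
    omega
  · rintro ⟨_, h⟩
    exact h

lemma sum_P {M : Type*} [AddCommMonoid M] (P : Finset (ℕ × ℕ)) (r0 c : ℕ → ℕ)
    (hP : ∀ t r, (t, r) ∈ P ↔ r0 t ≤ r ∧ r < r0 t + c t) (N : ℕ) (hN : ∀ t, N ≤ t → c t = 0)
    (f : ℕ × ℕ → M) :
    ∑ q ∈ P, f q = ∑ t ∈ Finset.range N, ∑ i ∈ Finset.range (c t), f (t, r0 t + i) := by
  rw [Finset.sum_finset_product P (Finset.range N) (fun t => Finset.Ico (r0 t) (r0 t + c t))]
  · refine Finset.sum_congr rfl fun t _ => ?_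
    rw [Finset.sum_Ico_eq_sum_range]
    simp
  · rintro ⟨t, r⟩
    rw [hP, Finset.mem_range, Finset.mem_Ico]
    constructor
    · intro h
      refine ⟨?_, h⟩
      by_contra h1
      have := hN t (by simp only at h1; omega)
      omega
    · rintro ⟨_, h⟩
      exact h

section
variable {K : Type*} [Field K]

/-- One fibre. -/
lemma fibre (ε u : K) (r n β : ℕ) (w : ℕ → K) :
    ∑ j ∈ Finset.range n, ((X + C u) ^ j * (1 + C ε * (X + C u)) ^ r : K[X]).coeff β *
      ∑ i ∈ Finset.range n, ((i.choose j : ℕ) : K) * ε ^ j * w i =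
    ε ^ β * ∑ i ∈ Finset.range n, ((X + C (1 + ε * u)) ^ (r + i) : K[X]).coeff β * w i := by
  have h1 : ∀ i ∈ Finset.range n, ((1 + C ε * (X + C u)) ^ (r + i) : K[X]) =
      ∑ j ∈ Finset.range n, C (((i.choose j : ℕ) : K) * ε ^ j) *
        ((X + C u) ^ j * (1 + C ε * (X + C u)) ^ r) := by
    intro i hi
    rw [Finset.mem_range] at hi
    rw [pow_add, add_comm 1 (C ε * (X + C u)), add_pow (C ε * (X + C u)) 1 i]
    have h2 : ∑ j ∈ Finset.range n, C (((i.choose j : ℕ) : K) * ε ^ j) *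
        ((X + C u) ^ j * (C ε * (X + C u) + 1) ^ r) =
        ∑ j ∈ Finset.range (i + 1), C (((i.choose j : ℕ) : K) * ε ^ j) *
        ((X + C u) ^ j * (C ε * (X + C u) + 1) ^ r) := by
      symm
      apply Finset.sum_subset
      · intro a ha
        rw [Finset.mem_range] at ha ⊢
        omega
      · intro a _ ha
        rw [Finset.mem_range] at ha
        rw [Nat.choose_eq_zero_of_lt (by omega)]
        simp
    rw [h2, Finset.mul_sum]
    refine Finset.sum_congr rfl fun j _ => ?_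
    rw [C_mul, C_pow, one_pow, mul_one, mul_pow]
    have : (C ((i.choose j : ℕ) : K) : K[X]) = ((i.choose j : ℕ) : K[X]) := by simp
    rw [this]
    ring
  simp only [Finset.mul_sum]
  rw [Finset.sum_comm]
  refine Finset.sum_congr rfl fun i hi => ?_
  rw [← mul_assoc, ← coeff_comp_lin, h1 i hi, finsetSum_coeff, Finset.sum_mul]
  refine Finset.sum_congr rfl fun j _ => ?_
  rw [coeff_C_mul]
  ring

theorem finrank_le {ι : Type*} [Fintype ι] (P Q : Finset (ℕ × ℕ)) (r0 c : ℕ → ℕ)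
    (hP : ∀ t r, (t, r) ∈ P ↔ r0 t ≤ r ∧ r < r0 t + c t)
    (hQ : ∀ t j, (t, j) ∈ Q ↔ j < c t) (m : ι → ℕ) (x u : ι → K) (ε : K) (hε : ε ≠ 0) :
    Module.finrank K (LinearMap.ker (condP P m (fun i => ![x i, 1 + ε * u i])).mulVecLin) ≤
    Module.finrank K (LinearMap.ker (degP Q m r0 x u ε).mulVecLin) := by
  obtain ⟨N, hN⟩ := exists_bound Q c hQ
  have h1 : (LinearMap.ker (condP P m (fun i => ![x i, 1 + ε * u i])).mulVecLin).map
      (chg P Q r0 c ε) ≤ LinearMap.ker (degP Q m r0 x u ε).mulVecLin := by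
    rintro w ⟨v, hv, rfl⟩
    rw [SetLike.mem_coe, LinearMap.mem_ker, Matrix.mulVecLin_apply] at hv
    rw [LinearMap.mem_ker, Matrix.mulVecLin_apply]
    funext d
    have h2 := congrFun hv d
    have h3 : ∑ q ∈ P, ec (x d.1) (1 + ε * u d.1) q.1 q.2 d.2.1.1 d.2.1.2 * ext P v q = 0 := by
      rw [← sum_ext P v (fun q => ec (x d.1) (1 + ε * u d.1) q.1 q.2 d.2.1.1 d.2.1.2)]
      exact h2
    rw [sum_P P r0 c hP N hN] at h3
    change ∑ q : ↥Q, degP Q m r0 x u ε d q * chg P Q r0 c ε v q = 0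
    have h4 : ∑ q : ↥Q, degP Q m r0 x u ε d q * chg P Q r0 c ε v q =
        ∑ q ∈ Q, (((X + C (x d.1)) ^ q.1 : K[X]).coeff d.2.1.1 *
          ((X + C (u d.1)) ^ q.2 * (1 + C ε * (X + C (u d.1))) ^ (r0 q.1) : K[X]).coeff d.2.1.2) *
          ∑ i ∈ Finset.range (c q.1), ((i.choose q.2 : ℕ) : K) * ε ^ q.2 *
            ext P v (q.1, r0 q.1 + i) := by
      rw [← Finset.sum_coe_sort Q (fun q => (((X + C (x d.1)) ^ q.1 : K[X]).coeff d.2.1.1 *
          ((X + C (u d.1)) ^ q.2 * (1 + C ε * (X + C (u d.1))) ^ (r0 q.1) : K[X]).coeff d.2.1.2) *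
          ∑ i ∈ Finset.range (c q.1), ((i.choose q.2 : ℕ) : K) * ε ^ q.2 *
            ext P v (q.1, r0 q.1 + i))]
      rfl
    rw [h4, sum_Q Q c hQ N hN]
    have h5 : ∀ t, ∑ j ∈ Finset.range (c t), (((X + C (x d.1)) ^ t : K[X]).coeff d.2.1.1 *
          ((X + C (u d.1)) ^ j * (1 + C ε * (X + C (u d.1))) ^ (r0 t) : K[X]).coeff d.2.1.2) *
          ∑ i ∈ Finset.range (c t), ((i.choose j : ℕ) : K) * ε ^ j *
            ext P v (t, r0 t + i) =
          ε ^ d.2.1.2 * ∑ i ∈ Finset.range (c t),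
            ec (x d.1) (1 + ε * u d.1) t (r0 t + i) d.2.1.1 d.2.1.2 * ext P v (t, r0 t + i) := by
      intro t
      have h6 := fibre ε (u d.1) (r0 t) (c t) d.2.1.2 (fun i => ext P v (t, r0 t + i))
      have h7 : ∑ j ∈ Finset.range (c t), (((X + C (x d.1)) ^ t : K[X]).coeff d.2.1.1 *
          ((X + C (u d.1)) ^ j * (1 + C ε * (X + C (u d.1))) ^ (r0 t) : K[X]).coeff d.2.1.2) *
          ∑ i ∈ Finset.range (c t), ((i.choose j : ℕ) : K) * ε ^ j *
            ext P v (t, r0 t + i) = ((X + C (x d.1)) ^ t : K[X]).coeff d.2.1.1 *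
          ∑ j ∈ Finset.range (c t),
          ((X + C (u d.1)) ^ j * (1 + C ε * (X + C (u d.1))) ^ (r0 t) : K[X]).coeff d.2.1.2 *
          ∑ i ∈ Finset.range (c t), ((i.choose j : ℕ) : K) * ε ^ j *
            ext P v (t, r0 t + i) := by
        rw [Finset.mul_sum]
        refine Finset.sum_congr rfl fun j _ => ?_
        ring
      rw [h7, h6, ← mul_assoc, mul_comm _ (ε ^ d.2.1.2), mul_assoc, Finset.mul_sum]
      congr 1
      refine Finset.sum_congr rfl fun i _ => ?_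
      unfold ec
      ring
    simp only at h3 ⊢
    rw [Finset.sum_congr rfl (fun t _ => h5 t), ← Finset.mul_sum, h3, mul_zero]
  have e1 := LinearEquiv.finrank_eq (Submodule.equivMapOfInjective (chg P Q r0 c ε)
    (chg_injective P Q r0 c hP hQ ε hε)
    (LinearMap.ker (condP P m (fun i => ![x i, 1 + ε * u i])).mulVecLin))
  have e3 := Submodule.finrank_mono h1
  omega

end

end CompressAux

open CompressAux in
/-- Compressing the fibres. -/
theorem OK.compress {ι : Type*} [Fintype ι] {P Q : Finset (ℕ × ℕ)} (r0 c : ℕ → ℕ)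
    (hP : ∀ t r, (t, r) ∈ P ↔ r0 t ≤ r ∧ r < r0 t + c t)
    (hQ : ∀ t j, (t, j) ∈ Q ↔ j < c t) {m : ι → ℕ} (h : OK Q m) : OK P m := by
  classical
  obtain ⟨p, hp⟩ := h
  set F : Matrix (Σ i : ι, ↥(tri (m i))) ↥Q (Polynomial ℝ) :=
    degP Q m r0 (fun i => C (p i 0)) (fun i => C (p i 1)) X with hF
  have hFe : ∀ e : ℝ, F.map (evalRingHom e) =
      degP Q m r0 (fun i => p i 0) (fun i => p i 1) e := by
    intro e
    rw [hF, degP_map]
    simp
  have hc : ∀ e : ℝ, (evalRingHom e).comp (C : ℝ →+* Polynomial ℝ) = RingHom.id ℝ := by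
    intro e
    ext r
    simp
  obtain ⟨g, hg0, hgg⟩ := exists_detpoly (C : ℝ →+* Polynomial ℝ) F
    (evalRingHom 0) (hc 0) (by rw [hFe, degP_zero]; exact hp)
  have hgX : g * X ≠ 0 := by
    apply mul_ne_zero
    · rintro rfl
      simp at hg0
    · exact X_ne_zero
  obtain ⟨e, he⟩ : ∃ e : ℝ, (g * X).eval e ≠ 0 := by
    by_contra hcon
    push Not at hcon
    apply hgX
    apply Polynomial.funext
    intro r
    rw [hcon r]; simp
  rw [eval_mul, eval_X] at he
  have he1 : g.eval e ≠ 0 := left_ne_zero_of_mul he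
  have he2 : e ≠ 0 := right_ne_zero_of_mul he
  have h1 : Good (degP Q m r0 (fun i => p i 0) (fun i => p i 1) e) := by
    rw [← hFe]
    exact hgg _ (hc e) he1
  refine ⟨fun i => ![p i 0, 1 + e * p i 1], ?_⟩
  have h2 := finrank_le P Q r0 c hP hQ m (fun i => p i 0) (fun i => p i 1) e he2
  have h3 : P.card = Q.card := by
    obtain ⟨N, hN⟩ := exists_bound Q c hQ
    rw [Finset.card_eq_sum_ones, Finset.card_eq_sum_ones, sum_P P r0 c hP N hN,
      sum_Q Q c hQ N hN]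
  unfold Good at h1 ⊢
  have h4 : Fintype.card ↥P = P.card := Fintype.card_coe P
  have h5 : Fintype.card ↥Q = Q.card := Fintype.card_coe Q
  rw [h5] at h1
  rw [h4, h3]
  exact h2.trans h1

end Pool.MP_70e04f_ag.Hex
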