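import Pool.Agent.Lib_MP_70e04f_hex.Defs

/-!
# A point at the origin, and change of the index set (piece CUT)

PAPER PROOF of `OK.cut`. Let `p` be good for `P \ tri μ` and put `p' none = ![0, 0]`,
`p' (some i) = p i`. If `v ∈ ker (condP P _ p')` then the conditions at `none` say
`v (α, β) = 0` for `(α, β) ∈ tri μ` (since `ec 0 0 a b α β = 1` if `(a, b) = (α, β)`, else `0`;
note `tri μ ⊆ P`). So the restriction map `ker (condP P _ p') → ker (condP (P \ tri μ) m p)` is
injective, hence `finrank ≤ card (P \ tri μ) - ∑ card (tri (m i))`, and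
`card (P \ tri μ) = card P - card (tri μ)`, `card (Σ o : Option ι, tri ..) =
card (tri μ) + card (Σ i, tri (m i))`.

PAPER PROOF of `OK.restrict`. Take the points `p ∘ f`. A vector `v` satisfies the conditions for
`(m, p ∘ f)` iff it satisfies those for `(m', p)`, because `tri 0 = ∅`. The cardinalities agree.
-/

namespace Pool.MP_70e04f_ag.Hex

lemma ec_zero_zero (a b α β : ℕ) :
    ec (0 : ℝ) 0 a b α β = if a = α ∧ b = β then 1 else 0 := by
  unfold ec
  rw [map_zero, add_zero, Polynomial.coeff_X_pow, Polynomial.coeff_X_pow]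
  by_cases h1 : α = a
  · by_cases h2 : β = b
    · subst h1 h2
      simp
    · have h3 : ¬ (a = α ∧ b = β) := fun h => h2 h.2.symm
      rw [if_neg h2, if_neg h3, mul_zero]
  · have h3 : ¬ (a = α ∧ b = β) := fun h => h1 h.1.symm
    rw [if_neg h1, if_neg h3, zero_mul]

/-- Adding a point at the origin. -/
theorem OK.cut {ι : Type*} [Fintype ι] {P : Finset (ℕ × ℕ)} {μ : ℕ} (hμ : tri μ ⊆ P)
    {m : ι → ℕ} (h : OK (P \ tri μ) m) : OK P (fun o : Option ι => o.elim μ m) := by
  classical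
  obtain ⟨p, hp⟩ := h
  set p' : Option ι → Fin 2 → ℝ := fun o j => o.elim 0 (fun i => p i j) with hp'
  refine ⟨p', ?_⟩
  set A : Matrix (Σ i : ι, ↥(tri (m i))) ↥(P \ tri μ) ℝ := condP (P \ tri μ) m p with hA
  set A' : Matrix (Σ o : Option ι, ↥(tri (o.elim μ m))) ↥P ℝ :=
    condP P (fun o : Option ι => o.elim μ m) p' with hA'
  -- the conditions at the origin
  have hnone : ∀ v : ↥P → ℝ, v ∈ LinearMap.ker A'.mulVecLin →
      ∀ q : ↥P, q.1 ∈ tri μ → v q = 0 := by
    intro v hv q hq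
    have h1 : A'.mulVec v = 0 := hv
    have h2 := congrFun h1 ⟨none, ⟨q.1, hq⟩⟩
    have h3 : A'.mulVec v ⟨none, ⟨q.1, hq⟩⟩ = v q := by
      show ∑ q' : ↥P, ec (0 : ℝ) 0 q'.1.1 q'.1.2 q.1.1 q.1.2 * v q' = v q
      rw [Finset.sum_eq_single q]
      · rw [ec_zero_zero, if_pos ⟨rfl, rfl⟩, one_mul]
      · intro q' _ hne
        rw [ec_zero_zero, if_neg, zero_mul]
        rintro ⟨h4, h5⟩
        exact hne (Subtype.ext (Prod.ext h4 h5))
      · intro h4
        exact absurd (Finset.mem_univ q) h4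
    rw [h3] at h2
    exact h2
  have hsub : ∀ q : ↥(P \ tri μ), q.1 ∈ P := fun q => (Finset.mem_sdiff.mp q.2).1
  have hker : ∀ v : ↥P → ℝ, v ∈ LinearMap.ker A'.mulVecLin →
      (fun q : ↥(P \ tri μ) => v ⟨q.1, hsub q⟩) ∈ LinearMap.ker A.mulVecLin := by
    intro v hv
    show A.mulVec (fun q : ↥(P \ tri μ) => v ⟨q.1, hsub q⟩) = 0
    funext c
    have h1 : A'.mulVec v = 0 := hv
    have h2 : A'.mulVec v ⟨some c.1, c.2⟩ = 0 := congrFun h1 ⟨some c.1, c.2⟩
    show A.mulVec (fun q : ↥(P \ tri μ) => v ⟨q.1, hsub q⟩) c = 0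
    rw [← h2]
    show ∑ q : ↥(P \ tri μ), ec (p c.1 0) (p c.1 1) q.1.1 q.1.2 c.2.1.1 c.2.1.2 *
        v ⟨q.1, hsub q⟩ =
      ∑ q : ↥P, ec (p c.1 0) (p c.1 1) q.1.1 q.1.2 c.2.1.1 c.2.1.2 * v q
    let φ : ↥(P \ tri μ) → ↥P := fun q => ⟨q.1, hsub q⟩
    have hφ : Function.Injective φ := by
      intro q q' hqq
      exact Subtype.ext (congrArg (fun z : ↥P => z.1) hqq)
    apply Fintype.sum_of_injective φ hφ
    · intro q hq
      have h4 : q.1 ∈ tri μ := by
        by_contra h5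
        exact hq ⟨⟨q.1, Finset.mem_sdiff.mpr ⟨q.2, h5⟩⟩, rfl⟩
      rw [hnone v hv q h4, mul_zero]
    · intro q
      rfl
  let f : LinearMap.ker A'.mulVecLin →ₗ[ℝ] LinearMap.ker A.mulVecLin :=
    { toFun := fun v => ⟨fun q => v.1 ⟨q.1, hsub q⟩, hker v.1 v.2⟩
      map_add' := fun _ _ => rfl
      map_smul' := fun _ _ => rfl }
  have hf : Function.Injective f := by
    intro v w hvw
    apply Subtype.ext
    funext q
    by_cases hq : q.1 ∈ tri μ
    · rw [hnone v.1 v.2 q hq, hnone w.1 w.2 q hq]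
    · exact congrFun (congrArg (fun z : LinearMap.ker A.mulVecLin => z.1) hvw)
        ⟨q.1, Finset.mem_sdiff.mpr ⟨q.2, hq⟩⟩
  have h1 := LinearMap.finrank_le_finrank_of_injective hf
  have h2 : Module.finrank ℝ (LinearMap.ker A.mulVecLin) ≤
      Fintype.card ↥(P \ tri μ) - Fintype.card (Σ i : ι, ↥(tri (m i))) := hp
  have h3 : Fintype.card ↥(P \ tri μ) = Fintype.card ↥P - (tri μ).card := by
    rw [Fintype.card_coe, Fintype.card_coe, Finset.card_sdiff_of_subset hμ]
  have h4 : Fintype.card (Σ o : Option ι, ↥(tri (o.elim μ m))) =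
      (tri μ).card + Fintype.card (Σ i : ι, ↥(tri (m i))) := by
    rw [Fintype.card_sigma, Fintype.card_sigma, Fintype.sum_option]
    congr 1
    exact Fintype.card_coe _
  show Module.finrank ℝ (LinearMap.ker A'.mulVecLin) ≤
    Fintype.card ↥P - Fintype.card (Σ o : Option ι, ↥(tri (o.elim μ m)))
  omega

/-- Leaving out points of multiplicity `0`, and renaming the points. -/
theorem OK.restrict {ι κ : Type*} [Fintype ι] [Fintype κ] (f : ι → κ) (hf : Function.Injective f)
    {P : Finset (ℕ × ℕ)} {m : ι → ℕ} {m' : κ → ℕ} (hm : ∀ i, m' (f i) = m i)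
    (h0 : ∀ j, j ∉ Set.range f → m' j = 0) (h : OK P m') : OK P m := by
  classical
  obtain ⟨p, hp⟩ := h
  refine ⟨fun i => p (f i), ?_⟩
  have h1 : LinearMap.ker (condP P m (fun i => p (f i))).mulVecLin ≤
      LinearMap.ker (condP P m' p).mulVecLin := by
    intro v hv
    show (condP P m' p).mulVec v = 0
    have hv' : (condP P m (fun i => p (f i))).mulVec v = 0 := hv
    funext c
    obtain ⟨j, ab, hab⟩ := c
    by_cases hj : j ∈ Set.range f
    · obtain ⟨i, rfl⟩ := hj
      have hab' : ab ∈ tri (m i) := by rw [← hm i]; exact hab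
      exact congrFun hv' ⟨i, ⟨ab, hab'⟩⟩
    · exfalso
      rw [h0 j hj, mem_tri] at hab
      exact Nat.not_lt_zero _ hab
  have h2 := Submodule.finrank_mono h1
  have h3 : Fintype.card (Σ i : ι, ↥(tri (m i))) = Fintype.card (Σ j : κ, ↥(tri (m' j))) := by
    rw [Fintype.card_sigma, Fintype.card_sigma]
    apply Fintype.sum_of_injective f hf
    · intro j hj
      rw [Fintype.card_coe, h0 j hj]
      rfl
    · intro i
      rw [Fintype.card_coe, Fintype.card_coe, hm i]
  unfold Good at hp ⊢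
  rw [h3]
  exact h2.trans hp

end Pool.MP_70e04f_ag.Hex
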