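import Pool.Agent.Lib_MP_70e04f_ag.FrontPot

/-!
# Linear systems with an arbitrary finite set of exponents

`OK P m` says that for suitable real points the vanishing conditions of multiplicities `m`
on the polynomials with exponents in `P` have the rank one expects (`Good`).
The full triangle `tri (d + 1)` gives the plane curves of degree `d`.
-/

namespace Pool.MP_70e04f_ag.Hex

open Polynomial

/-- The matrix of the vanishing conditions on the polynomials with exponents in `P`. -/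
noncomputable def condP {R ι : Type*} [CommRing R] (P : Finset (ℕ × ℕ)) (m : ι → ℕ)
    (p : ι → Fin 2 → R) : Matrix (Σ i : ι, ↥(tri (m i))) ↥P R :=
  fun c q => ec (p c.1 0) (p c.1 1) q.1.1 q.1.2 c.2.1.1 c.2.1.2

/-- Some real points give the expected rank. -/
def OK {ι : Type*} [Fintype ι] (P : Finset (ℕ × ℕ)) (m : ι → ℕ) : Prop :=
  ∃ p : ι → Fin 2 → ℝ, Good (condP P m p)

lemma condP_tri {R : Type*} [CommRing R] {n : ℕ} (N : ℕ) (m : Fin n → ℕ) (p : Fin n → Fin 2 → R) :
    condP (tri N) m p = condMat N m p := rfl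

/-- The number of elements of `Q` in the row `j`. -/
def rowc (Q : Finset (ℕ × ℕ)) (j : ℕ) : ℕ := (Q.filter (fun q => q.2 = j)).card

/-- The hexagon `a ≤ A`, `b ≤ B`, `g ≤ a + b`, `a + b + e ≤ A + B`. -/
def hex (A B g e : ℕ) : Finset (ℕ × ℕ) :=
  (Finset.range (A + 1) ×ˢ Finset.range (B + 1)).filter
    (fun q => g ≤ q.1 + q.2 ∧ q.1 + q.2 + e ≤ A + B)

lemma mem_hex {A B g e : ℕ} {q : ℕ × ℕ} :
    q ∈ hex A B g e ↔ q.1 ≤ A ∧ q.2 ≤ B ∧ g ≤ q.1 + q.2 ∧ q.1 + q.2 + e ≤ A + B := by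
  unfold hex
  rw [Finset.mem_filter, Finset.mem_product, Finset.mem_range, Finset.mem_range]
  omega

/-- The elements `q` of the hexagon with `q + j (-k, l)` in the hexagon. -/
def hexJ (k l A B g e j : ℕ) : Finset (ℕ × ℕ) :=
  (hex A B g e).filter (fun q => j * k ≤ q.1 ∧ (q.1 - j * k, q.2 + j * l) ∈ hex A B g e)

/-- Twice the triangular number. -/
def T2 (x : ℤ) : ℤ := if 0 ≤ x then x * (x + 1) else 0

/-- Twice the number of points of the hexagon. -/
def F2 (A B g e : ℤ) : ℤ :=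
  2 * (A + 1) * (B + 1) - T2 g - T2 e + T2 (g - A - 1) + T2 (e - A - 1)

/-- The exponents of the curves of degree `d` with multiplicities at the coordinate points. -/
def zed (d al be ga : ℕ) : Finset (ℕ × ℕ) :=
  (tri (d + 1)).filter (fun q => q.1 + al ≤ d ∧ q.2 + be ≤ d ∧ ga ≤ q.1 + q.2)

lemma mem_zed {d al be ga : ℕ} {q : ℕ × ℕ} :
    q ∈ zed d al be ga ↔ q.1 + q.2 ≤ d ∧ q.1 + al ≤ d ∧ q.2 + be ≤ d ∧ ga ≤ q.1 + q.2 := by
  unfold zed
  rw [Finset.mem_filter, mem_tri, Nat.lt_succ_iff]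

end Pool.MP_70e04f_ag.Hex
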