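import Pool.Agent.Lib_MP_70e04f_ag.Mix1

/-!
Filling the rows exactly by points of arbitrary multiplicities in decreasing order: the version
for row lengths which are concave up to a defect `c0` in the last `m` rows (compare
`Lib_MP_70e04f_ag/Mix2.lean`, `Mix3.lean`).
-/

namespace Pool.MP_70e04f_ag.Hex

/-- The state when all the rows above `j` have been filled: `q` points have been placed, the point
`i` at the row `R i` with the parameter `c i`. -/
structure StageK (c0 : ℕ) (lam : ℕ → ℕ) (n m β : ℕ) (r : ℕ → ℤ) (j q : ℕ) (R c : ℕ → ℕ) : Prop where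
  hq : q ≤ n
  un : ∀ i, q ≤ i → R i = 1 ∧ c i = 0
  row : ∀ i, i < q → j < R i ∧ R i ≤ β ∧ c i ≤ R i ∧ R i ≤ c i + lam i
  half : ∀ i, i < q → R i ≤ 2 * c i ∨ m ≤ c i
  two : ∀ B, j < B → ((Finset.range q).filter (fun i => R i = B ∧ c i < B)).card ≤ 2
  defi : ∀ B, j < B → ∑ i ∈ (Finset.range q).filter (fun i => R i = B), (B - c i) ≤ min B m
  exact : ∀ s, j < s → ∑ i ∈ Finset.range n, (vp (lam i) (R i - 1) (c i) s : ℤ) = r s
  cross : ∀ t, 1 ≤ t → t < m → j < t + lam q →
    7 + c0 ≤ ((Finset.range q).filter (fun i => R i = lam i + t)).card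

section
variable (c0 : ℕ) (lam : ℕ → ℕ) (n m β : ℕ) (r : ℕ → ℤ) (hlam : Antitone lam) (hm : ∀ i, lam i ≤ m)
  (hβ : 2 * m ≤ β) (htot : 2 * ∑ s ∈ Finset.range (β + 2), r s =
    ∑ i ∈ Finset.range n, (lam i : ℤ) * (lam i + 1))
  (j q : ℕ) (R c : ℕ → ℕ) (h : StageK c0 lam n m β r j q R c)
include hlam hm hβ htot h

set_option linter.unusedSectionVars false

/-- The loads have the right total. -/
lemma StageK.total : ∑ s ∈ Finset.range (β + 2), ∑ i ∈ Finset.range n,
    (vp (lam i) (R i - 1) (c i) s : ℤ) = ∑ s ∈ Finset.range (β + 2), r s := by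
  have h1 : ∀ i ∈ Finset.range n, 2 * ∑ s ∈ Finset.range (β + 2),
      (vp (lam i) (R i - 1) (c i) s : ℤ) = (lam i : ℤ) * (lam i + 1) := by
    intro i _
    have h2 := hm i
    have h3 : c i ≤ R i - 1 + 1 ∧ R i - 1 + 2 ≤ β + 2 := by
      rcases Nat.lt_or_ge i q with h4 | h4
      · have := h.row i h4
        omega
      · have := h.un i h4
        omega
    have := sum_vp (lam i) (R i - 1) (c i) (β + 2) h3.1 h3.2 (by omega)
    exact_mod_cast this
  have h2 := Finset.sum_congr rfl h1
  rw [← Finset.mul_sum, Finset.sum_comm, ← htot] at h2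
  linarith

/-- The load of the row `j` when the remaining multiplicities are at most `j`. -/
lemma StageK.stepA (hj : lam q ≤ j) : ∑ i ∈ Finset.range n, (vp (lam i) (R i - 1) (c i) j : ℤ) ≤
    r (j + 1) + ((∑ i ∈ (Finset.range q).filter (fun i => R i = j + 1), (j + 1 - c i) : ℕ) : ℤ) := by
  rw [← h.exact (j + 1) (by omega)]
  have h1 : ((∑ i ∈ (Finset.range q).filter (fun i => R i = j + 1), (j + 1 - c i) : ℕ) : ℤ) =
      ∑ i ∈ Finset.range n, if i < q ∧ R i = j + 1 then ((j + 1 - c i : ℕ) : ℤ) else 0 := by
    rw [← Finset.sum_filter]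
    push_cast
    refine Finset.sum_congr ?_ fun _ _ => rfl
    ext i
    have := h.hq
    rw [Finset.mem_filter, Finset.mem_filter, Finset.mem_range, Finset.mem_range]
    constructor
    · rintro ⟨h2, h3⟩
      exact ⟨by omega, h2, h3⟩
    · rintro ⟨_, h2, h3⟩
      exact ⟨h2, h3⟩
  rw [h1, ← Finset.sum_add_distrib]
  apply Finset.sum_le_sum
  intro i _
  rcases Nat.lt_or_ge i q with h4 | h4
  · obtain ⟨g1, g2, g3, g4⟩ := h.row i h4
    unfold vp
    split_ifs <;> omega
  · obtain ⟨g1, g2⟩ := h.un i h4
    have g3 := hlam h4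
    rw [g1, g2]
    unfold vp
    split_ifs <;> omega

/-- There are enough remaining points. -/
lemma StageK.enough (hj : 1 ≤ j) (hjβ : j ≤ β) (hr : ∀ s, s < j → r j ≤ r s) :
    r j - ∑ i ∈ Finset.range n, (vp (lam i) (R i - 1) (c i) j : ℤ) ≤
      ((∑ i ∈ Finset.Ico q n, min j (lam i) : ℕ) : ℤ) := by
  by_contra hcon
  push Not at hcon
  set V : ℕ → ℕ → ℤ := fun i s => if i < q then (vp (lam i) (R i - 1) (c i) s : ℤ) else
    (vp (lam i) (j - 1) j s : ℤ) with hV
  have hT : 2 * ∑ s ∈ Finset.range (β + 2), ∑ i ∈ Finset.range n, V i s =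
      ∑ i ∈ Finset.range n, (lam i : ℤ) * (lam i + 1) := by
    rw [Finset.sum_comm, Finset.mul_sum]
    refine Finset.sum_congr rfl fun i _ => ?_
    have h2 := hm i
    simp only [hV]
    by_cases h4 : i < q
    · have h3 := h.row i h4
      have := sum_vp (lam i) (R i - 1) (c i) (β + 2) (by omega) (by omega) (by omega)
      simp only [if_pos h4]
      exact_mod_cast this
    · have := sum_vp (lam i) (j - 1) j (β + 2) (by omega) (by omega) (by omega)
      simp only [if_neg h4]
      exact_mod_cast this
  have hrow1 : ∀ s, j < s → ∑ i ∈ Finset.range n, V i s = r s := by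
    intro s hs
    rw [← h.exact s hs]
    refine Finset.sum_congr rfl fun i _ => ?_
    simp only [hV]
    by_cases h4 : i < q
    · rw [if_pos h4]
    · rw [if_neg h4, (h.un i (by omega)).1, (h.un i (by omega)).2]
      unfold vp
      split_ifs <;> omega
  have hrow2 : ∑ i ∈ Finset.range n, V i j < r j := by
    have h2 : ∑ i ∈ Finset.range n, V i j =
        ∑ i ∈ Finset.range n, (vp (lam i) (R i - 1) (c i) j : ℤ) +
        ((∑ i ∈ Finset.Ico q n, min j (lam i) : ℕ) : ℤ) := by
      have h3 : ((∑ i ∈ Finset.Ico q n, min j (lam i) : ℕ) : ℤ) =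
          ∑ i ∈ Finset.range n, if q ≤ i then ((min j (lam i) : ℕ) : ℤ) else 0 := by
        rw [← Finset.sum_filter]
        push_cast
        refine Finset.sum_congr ?_ fun _ _ => rfl
        ext i
        rw [Finset.mem_filter, Finset.mem_Ico, Finset.mem_range]
        omega
      rw [h3, ← Finset.sum_add_distrib]
      refine Finset.sum_congr rfl fun i _ => ?_
      simp only [hV]
      by_cases h4 : i < q
      · rw [if_pos h4, if_neg (by omega), add_zero]
      · rw [if_neg h4, if_pos (by omega), (h.un i (by omega)).1, (h.un i (by omega)).2]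
        unfold vp
        split_ifs <;> omega
    rw [h2]
    linarith
  have hrow3 : ∀ s, s < j → ∑ i ∈ Finset.range n, V i s ≤ ∑ i ∈ Finset.range n, V i j := by
    intro s hs
    apply Finset.sum_le_sum
    intro i _
    simp only [hV]
    by_cases h4 : i < q
    · rw [if_pos h4, if_pos h4]
      have h3 := h.row i h4
      unfold vp
      split_ifs <;> omega
    · rw [if_neg h4, if_neg h4]
      unfold vp
      split_ifs <;> omega
  have hlt : ∑ s ∈ Finset.range (β + 2), ∑ i ∈ Finset.range n, V i s <
      ∑ s ∈ Finset.range (β + 2), r s := by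
    apply Finset.sum_lt_sum
    · intro s _
      rcases Nat.lt_trichotomy s j with h1 | h1 | h1
      · have := hrow3 s h1
        have := hr s h1
        linarith
      · rw [h1]; exact hrow2.le
      · exact (hrow1 s h1).le
    · exact ⟨j, Finset.mem_range.2 (by omega), hrow2⟩
  linarith

/-- The load of the row `j` when the remaining multiplicities are larger than `j`. -/
lemma StageK.stepB (hconc : ∀ t, t + 1 < m → r t + r (t + 2) ≤ 2 * r (t + 1) + c0) (hj : 1 ≤ j)
    (hjq : j < lam q) :
    (j : ℤ) ≤ 2 * (r j - ∑ i ∈ Finset.range n, (vp (lam i) (R i - 1) (c i) j : ℤ)) := by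
  classical
  have hjm : j < m := lt_of_lt_of_le hjq (hm q)
  set L : ℕ → ℤ := fun s => ∑ i ∈ Finset.range n, (vp (lam i) (R i - 1) (c i) s : ℤ) with hL
  -- the identity
  have id1 : ∑ i ∈ Finset.range n, Wf (lam i) (R i - 1) (c i) j ≤
      ((j : ℤ) + 1) * (j + 2) * (r j - L j) +
        c0 * ∑ t ∈ Finset.range j, ((t : ℤ) + 1) * (t + 2) := by
    have e1 : ∑ i ∈ Finset.range n, Wf (lam i) (R i - 1) (c i) j =
        2 * ∑ s ∈ Finset.range (j + 1), L s - (j + 1) * (j + 2) * L j +
        j * (j + 1) * L (j + 1) := by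
      unfold Wf
      simp only [hL]
      rw [Finset.sum_add_distrib, Finset.sum_sub_distrib, ← Finset.mul_sum, ← Finset.mul_sum,
        ← Finset.mul_sum, Finset.sum_comm]
    have e2 := second_sum r j
    have e3 : ∑ t ∈ Finset.range j, ((t : ℤ) + 1) * (t + 2) *
        (r t - 2 * r (t + 1) + r (t + 2)) ≤ c0 * ∑ t ∈ Finset.range j, ((t : ℤ) + 1) * (t + 2) := by
      rw [Finset.mul_sum]
      apply Finset.sum_le_sum
      intro t ht
      rw [Finset.mem_range] at ht
      have h1 := hconc t (by omega)
      rw [mul_comm (c0 : ℤ)]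
      apply mul_le_mul_of_nonneg_left _ (by positivity)
      linarith
    have e4 : L (j + 1) = r (j + 1) := h.exact (j + 1) (by omega)
    have e5 : ∑ s ∈ Finset.range (j + 1), L s = ∑ s ∈ Finset.range (j + 1), r s := by
      have h1 := h.total c0 lam n m β r hlam hm hβ htot j q R c
      have h2 : β + 2 = (j + 1) + (β + 1 - j) := by omega
      rw [h2, Finset.sum_range_add, Finset.sum_range_add _ (j + 1)] at h1
      have h3 : ∑ x ∈ Finset.range (β + 1 - j), ∑ i ∈ Finset.range n,
          (vp (lam i) (R i - 1) (c i) (j + 1 + x) : ℤ) =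
          ∑ x ∈ Finset.range (β + 1 - j), r (j + 1 + x) :=
        Finset.sum_congr rfl fun x _ => h.exact (j + 1 + x) (by omega)
      rw [h3] at h1
      simp only [hL]
      linarith
    rw [e1, e4, e5]
    linarith
  -- the pointwise bound
  have hpt : ∀ i ∈ Finset.range n, (if i < q then (∑ t ∈ Finset.range j,
      ((t : ℤ) + 1) * (t + 2) * (if R i = lam i + (t + 1) then 1 else 0)) -
      (if j + 2 ≤ R i ∧ c i ≤ j then 2 * (j : ℤ) else 0) -
      (if R i = j + 1 then (j : ℤ) * (j + 1) * (j + 1 - c i : ℕ) else 0) -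
      (if R i = j + 1 ∧ c i < j + 1 then (j : ℤ) * (j + 1) + 2 * j else 0) else 0) ≤
      Wf (lam i) (R i - 1) (c i) j := by
    intro i _
    by_cases h4 : i < q
    · rw [if_pos h4]
      obtain ⟨g1, g2, g3, g4⟩ := h.row i h4
      have g5 : lam q ≤ lam i := hlam h4.le
      rcases Nat.eq_or_lt_of_le (show j + 1 ≤ R i from g1) with g6 | g6
      · rw [if_neg (by omega), if_pos g6.symm]
        have e1 : ∑ t ∈ Finset.range j, ((t : ℤ) + 1) * (t + 2) *
            (if R i = lam i + (t + 1) then 1 else 0) = 0 := by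
          apply Finset.sum_eq_zero
          intro t _
          rw [if_neg (by omega), mul_zero]
        have e2 := Wf_near (lam i) (c i) j hj (by omega) (by omega)
        have e3 : R i - 1 = j := by omega
        rw [e1, e3]
        refine le_trans (le_of_eq ?_) e2
        by_cases g7 : c i ≤ j
        · rw [if_pos ⟨g6.symm, by omega⟩, if_pos g7]; ring
        · rw [if_neg (by omega), if_neg g7]; ring
      · have e2 := Wf_far (lam i) (R i) (c i) j g6 g3 g4
        refine le_trans (le_of_eq ?_) e2
        rw [if_neg (show ¬ R i = j + 1 by omega), if_neg (show ¬ (R i = j + 1 ∧ c i < j + 1) by omega),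
          sub_zero, sub_zero]
        congr 1
        by_cases g7 : c i ≤ j
        · rw [if_pos ⟨by omega, g7⟩, if_pos g7]
        · rw [if_neg (by omega), if_neg g7]
    · rw [if_neg h4]
      obtain ⟨g1, g2⟩ := h.un i (by omega)
      rw [g1, g2]
      exact Wf_rest (lam i) j
  have hsum := (Finset.sum_le_sum hpt).trans id1
  -- the four sums
  have hsplit : ∑ i ∈ Finset.range n, (if i < q then (∑ t ∈ Finset.range j,
      ((t : ℤ) + 1) * (t + 2) * (if R i = lam i + (t + 1) then 1 else 0)) -
      (if j + 2 ≤ R i ∧ c i ≤ j then 2 * (j : ℤ) else 0) -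
      (if R i = j + 1 then (j : ℤ) * (j + 1) * (j + 1 - c i : ℕ) else 0) -
      (if R i = j + 1 ∧ c i < j + 1 then (j : ℤ) * (j + 1) + 2 * j else 0) else 0) =
      ∑ i ∈ Finset.range q, ∑ t ∈ Finset.range j,
        ((t : ℤ) + 1) * (t + 2) * (if R i = lam i + (t + 1) then 1 else 0) -
      ∑ i ∈ Finset.range q, (if j + 2 ≤ R i ∧ c i ≤ j then 2 * (j : ℤ) else 0) -
      ∑ i ∈ Finset.range q, (if R i = j + 1 then (j : ℤ) * (j + 1) * (j + 1 - c i : ℕ) else 0) -
      ∑ i ∈ Finset.range q,
        (if R i = j + 1 ∧ c i < j + 1 then (j : ℤ) * (j + 1) + 2 * j else 0) := by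
    rw [← Finset.sum_filter, ← Finset.sum_sub_distrib, ← Finset.sum_sub_distrib,
      ← Finset.sum_sub_distrib]
    refine Finset.sum_congr ?_ fun _ _ => rfl
    ext i
    have := h.hq
    rw [Finset.mem_filter, Finset.mem_range, Finset.mem_range]
    omega
  have s1 : (7 + (c0 : ℤ)) * ∑ t ∈ Finset.range j, ((t : ℤ) + 1) * (t + 2) ≤
      ∑ i ∈ Finset.range q, ∑ t ∈ Finset.range j,
        ((t : ℤ) + 1) * (t + 2) * (if R i = lam i + (t + 1) then 1 else 0) := by
    rw [Finset.sum_comm, Finset.mul_sum]
    apply Finset.sum_le_sum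
    intro t ht
    rw [Finset.mem_range] at ht
    have h1 := h.cross (t + 1) (by omega) (by omega) (by omega)
    rw [← Finset.mul_sum, ← Finset.sum_filter, Finset.sum_const, nsmul_one, mul_comm]
    apply mul_le_mul_of_nonneg_left _ (by positivity)
    exact_mod_cast h1
  have s1' : 3 * ∑ t ∈ Finset.range j, ((t : ℤ) + 1) * (t + 2) = j * (j + 1) * (j + 2) := by
    clear * -
    induction j with
    | zero => simp
    | succ j ih =>
      rw [Finset.sum_range_succ, mul_add, ih]
      push_cast; ring
  have s2 : ∑ i ∈ Finset.range q, (if j + 2 ≤ R i ∧ c i ≤ j then 2 * (j : ℤ) else 0) ≤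
      2 * j * (2 * (j - 1 : ℕ)) := by
    rw [← Finset.sum_filter, Finset.sum_const, nsmul_eq_mul, mul_comm]
    apply mul_le_mul_of_nonneg_left _ (by positivity)
    have h1 : ((Finset.range q).filter (fun i => j + 2 ≤ R i ∧ c i ≤ j)).card ≤
        2 * (j - 1) := by
      have h2 : ∀ i ∈ (Finset.range q).filter (fun i => j + 2 ≤ R i ∧ c i ≤ j),
          R i ∈ Finset.Ioc (j + 1) (2 * j) := by
        intro i hi
        rw [Finset.mem_filter, Finset.mem_range] at hi
        have h3 := h.half i hi.1
        rw [Finset.mem_Ioc]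
        omega
      rw [Finset.card_eq_sum_card_fiberwise h2]
      have h3 : ∀ B ∈ Finset.Ioc (j + 1) (2 * j),
          (((Finset.range q).filter (fun i => j + 2 ≤ R i ∧ c i ≤ j)).filter
            (fun i => R i = B)).card ≤ 2 := by
        intro B hB
        rw [Finset.mem_Ioc] at hB
        refine (Finset.card_le_card ?_).trans (h.two B (by omega))
        intro i hi
        rw [Finset.mem_filter, Finset.mem_filter] at hi
        rw [Finset.mem_filter]
        exact ⟨hi.1.1, hi.2, by omega⟩
      refine (Finset.sum_le_sum h3).trans ?_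
      rw [Finset.sum_const, Nat.card_Ioc, smul_eq_mul]
      omega
    exact_mod_cast h1
  have s3 : ∑ i ∈ Finset.range q,
      (if R i = j + 1 then (j : ℤ) * (j + 1) * (j + 1 - c i : ℕ) else 0) ≤
      j * (j + 1) * (j + 1) := by
    rw [← Finset.sum_filter, ← Finset.mul_sum]
    apply mul_le_mul_of_nonneg_left _ (by positivity)
    have h1 := h.defi (j + 1) (by omega)
    have h2 : ∑ i ∈ (Finset.range q).filter (fun i => R i = j + 1), (j + 1 - c i) ≤ j + 1 := by
      omega
    have h3 : ((∑ i ∈ (Finset.range q).filter (fun i => R i = j + 1), (j + 1 - c i) : ℕ) : ℤ) ≤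
      ((j + 1 : ℕ) : ℤ) := by exact_mod_cast h2
    rw [Nat.cast_sum] at h3
    push_cast at h3 ⊢
    exact h3
  have s4 : ∑ i ∈ Finset.range q,
      (if R i = j + 1 ∧ c i < j + 1 then (j : ℤ) * (j + 1) + 2 * j else 0) ≤
      2 * (j * (j + 1) + 2 * j) := by
    rw [← Finset.sum_filter, Finset.sum_const, nsmul_eq_mul]
    apply mul_le_mul_of_nonneg_right _ (by positivity)
    have h1 := h.two (j + 1) (by omega)
    exact_mod_cast h1
  rw [hsplit] at hsum
  by_contra hcon
  push Not at hcon
  have hj0 : (1 : ℤ) ≤ j := by exact_mod_cast hj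
  have e6 : ((j - 1 : ℕ) : ℤ) = j - 1 := by omega
  rw [e6] at s2
  set g := r j - L j with hg
  have h7 : 2 * g ≤ j - 1 := by omega
  have h8 : ((j : ℤ) + 1) * (j + 2) * (2 * g) ≤ (j + 1) * (j + 2) * (j - 1) :=
    mul_le_mul_of_nonneg_left h7 (by positivity)
  have h9 : (0 : ℤ) < 5 * j ^ 3 - 12 * j ^ 2 + 13 * j + 6 := by
    have : (5 * (j : ℤ) ^ 3 - 12 * j ^ 2 + 13 * j + 6) = j * (5 * j ^ 2 - 12 * j + 13) + 6 := by
      ring
    rw [this]
    have h10 : (0 : ℤ) ≤ 5 * j ^ 2 - 12 * j + 13 := by nlinarith [sq_nonneg ((j : ℤ) - 1)]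
    have := mul_nonneg (show (0 : ℤ) ≤ j by omega) h10
    linarith
  nlinarith

end


section
variable (c0 : ℕ) (lam : ℕ → ℕ) (n m β : ℕ) (r : ℕ → ℤ) (hlam : Antitone lam) (hm : ∀ i, lam i ≤ m)
  (hβ : 2 * m ≤ β) (htot : 2 * ∑ s ∈ Finset.range (β + 2), r s =
    ∑ i ∈ Finset.range n, (lam i : ℤ) * (lam i + 1))
include hlam hm hβ htot

set_option linter.unusedSectionVars false

/-- Filling one more row. -/
lemma StageK.step (j q : ℕ) (R c : ℕ → ℕ) (h : StageK c0 lam n m β r j q R c)
    (hj : 1 ≤ j) (hjβ : j ≤ β) (hr0 : r (β + 1) = 0) (hrβ : 0 ≤ r β)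
    (hslope : ∀ s, s < β → (m : ℤ) ≤ r s - r (s + 1))
    (hslope7 : ∀ s, s < 2 * m → (7 + (c0 : ℤ)) * m + 1 ≤ r s - r (s + 1))
    (hconc : ∀ t, t + 1 < m → r t + r (t + 2) ≤ 2 * r (t + 1) + c0) :
    ∃ q' R' c', StageK c0 lam n m β r (j - 1) q' R' c' := by
  classical
  set L : ℤ := ∑ i ∈ Finset.range n, (vp (lam i) (R i - 1) (c i) j : ℤ) with hL
  -- the deficiency of the previous row
  have hD := h.defi (j + 1) (by omega)
  set D := ∑ i ∈ (Finset.range q).filter (fun i => R i = j + 1), (j + 1 - c i) with hDdef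
  have hDβ : j = β → D = 0 := by
    intro h1
    rw [hDdef, Finset.sum_filter]
    apply Finset.sum_eq_zero
    intro i hi
    rw [Finset.mem_range] at hi
    rw [if_neg]
    have := (h.row i hi).2.1
    omega
  -- the case of small multiplicities
  have hA : lam q ≤ j → (r j - r (j + 1)) - D ≤ r j - L := by
    intro h1
    have := h.stepA c0 lam n m β r hlam hm hβ htot j q R c h1
    linarith
  have hA7 : j < 2 * m → lam q ≤ j → (6 + (c0 : ℤ)) * m + 1 ≤ r j - L := by
    intro h1 h2
    have h3 := hA h2
    have h4 := hslope7 j h1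
    have h5 : (D : ℤ) ≤ m := by
      have : D ≤ m := hD.trans (Nat.min_le_right _ _)
      exact_mod_cast this
    linarith
  have hc0m : 0 ≤ (c0 : ℤ) * m := by positivity
  have hc6 : 6 * (m : ℤ) ≤ (6 + (c0 : ℤ)) * m := by rw [add_mul]; omega
  have hg0 : 0 ≤ r j - L := by
    rcases Nat.lt_or_ge j (2 * m) with h1 | h1
    · rcases Nat.lt_or_ge j (lam q) with h2 | h2
      · have := h.stepB c0 lam n m β r hlam hm hβ htot j q R c hconc hj h2
        omega
      · have := hA7 h1 h2
        nlinarith
    · have h2 := hA ((hm q).trans (by omega))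
      rcases Nat.eq_or_lt_of_le hjβ with h3 | h3
      · rw [hDβ h3, h3, hr0] at h2
        rw [h3]
        push_cast at h2
        omega
      · have h4 := hslope j h3
        omega
  obtain ⟨g, hg⟩ : ∃ g : ℕ, (g : ℤ) = r j - L := ⟨(r j - L).toNat, Int.toNat_of_nonneg hg0⟩
  have hmono : ∀ s, s < j → r j ≤ r s := by
    intro s hs
    have key : ∀ x, s + x ≤ β → r (s + x) ≤ r s := by
      intro x
      induction x with
      | zero => intro _; exact le_rfl
      | succ x ih =>
        intro hx
        have h1 := ih (by omega)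
        have h2 := hslope (s + x) (by omega)
        have e : s + (x + 1) = s + x + 1 := rfl
        rw [e]
        omega
    have := key (j - s) (by omega)
    rwa [show s + (j - s) = j by omega] at this
  have henough := h.enough c0 lam n m β r hlam hm hβ htot j q R c hj hjβ hmono
  rw [← hL, ← hg] at henough
  have henough' : g ≤ ∑ i ∈ Finset.Ico q n, min j (lam i) := by exact_mod_cast henough
  have hf : 2 * m ≤ j ∨ min j (lam q) ≤ 2 * g ∨ g = 0 := by
    rcases Nat.lt_or_ge j (2 * m) with h1 | h1
    · right; left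
      rcases Nat.lt_or_ge j (lam q) with h2 | h2
      · have := h.stepB c0 lam n m β r hlam hm hβ htot j q R c hconc hj h2
        omega
      · have := hA7 h1 h2
        have := hm q
        omega
    · exact Or.inl h1
  obtain ⟨q', d, g1, g2, g3, g4, g5, g6, g7⟩ := row_fill (fun i => min j (lam i))
    (fun a b hab => by have := hlam hab; simp only; omega) q n h.hq g henough' (2 * m ≤ j) hf
  set R' : ℕ → ℕ := fun i => if q ≤ i ∧ i < q' then j else R i with hR'
  set c' : ℕ → ℕ := fun i => if q ≤ i ∧ i < q' then j - d i else c i with hc'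
  have hRold : ∀ i, i < q → R' i = R i ∧ c' i = c i := by
    intro i hi
    simp only [hR', hc']
    rw [if_neg (by omega), if_neg (by omega)]
    exact ⟨rfl, rfl⟩
  have hRnew : ∀ i, q ≤ i → i < q' → R' i = j ∧ c' i = j - d i := by
    intro i hi hi'
    simp only [hR', hc']
    rw [if_pos ⟨hi, hi'⟩, if_pos ⟨hi, hi'⟩]
    exact ⟨rfl, rfl⟩
  have hRrest : ∀ i, q' ≤ i → R' i = 1 ∧ c' i = 0 := by
    intro i hi
    simp only [hR', hc']
    rw [if_neg (by omega), if_neg (by omega)]
    exact h.un i (by omega)
  refine ⟨q', R', c', ?_, hRrest, ?_, ?_, ?_, ?_, ?_, ?_⟩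
  · exact g2
  · intro i hi
    rcases Nat.lt_or_ge i q with h1 | h1
    · rw [(hRold i h1).1, (hRold i h1).2]
      have := h.row i h1
      omega
    · rw [(hRnew i h1 hi).1, (hRnew i h1 hi).2]
      have := g3 i
      omega
  · intro i hi
    rcases Nat.lt_or_ge i q with h1 | h1
    · rw [(hRold i h1).1, (hRold i h1).2]
      exact h.half i h1
    · rw [(hRnew i h1 hi).1, (hRnew i h1 hi).2]
      have h3 := g3 i
      have h4 := hm i
      rcases g4 with g4 | g4
      · right; omega
      · left
        have := g4 i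
        omega
  · -- at most two incomplete points
    intro B hB
    rcases Nat.eq_or_lt_of_le (show j ≤ B by omega) with h1 | h1
    · subst h1
      refine (Finset.card_le_card ?_).trans g6
      intro i hi
      rw [Finset.mem_filter, Finset.mem_range] at hi
      rw [Finset.mem_filter, Finset.mem_Ico]
      have h2 : q ≤ i := by
        by_contra hcon
        have h3 := (hRold i (by omega)).1
        have h4 := (h.row i (by omega)).1
        omega
      have h3 := (hRnew i h2 hi.1).2
      exact ⟨⟨h2, hi.1⟩, by omega⟩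
    · refine (Finset.card_le_card ?_).trans (h.two B h1)
      intro i hi
      rw [Finset.mem_filter, Finset.mem_range] at hi
      rw [Finset.mem_filter, Finset.mem_range]
      have h2 : i < q := by
        by_contra hcon
        have h3 := (hRnew i (by omega) hi.1).1
        omega
      rw [(hRold i h2).1, (hRold i h2).2] at hi
      exact ⟨h2, hi.2⟩
  · -- the deficiencies
    intro B hB
    rcases Nat.eq_or_lt_of_le (show j ≤ B by omega) with h1 | h1
    · subst h1
      have e1 : (Finset.range q').filter (fun i => R' i = j) = Finset.Ico q q' := by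
        ext i
        rw [Finset.mem_filter, Finset.mem_range, Finset.mem_Ico]
        constructor
        · rintro ⟨h2, h3⟩
          refine ⟨?_, h2⟩
          by_contra hcon
          have h4 := (hRold i (by omega)).1
          have h5 := (h.row i (by omega)).1
          omega
        · rintro ⟨h2, h3⟩
          exact ⟨h3, (hRnew i h2 h3).1⟩
      rw [e1]
      have e2 : ∑ i ∈ Finset.Ico q q', (j - c' i) = ∑ i ∈ Finset.Ico q q', d i := by
        refine Finset.sum_congr rfl fun i hi => ?_
        rw [Finset.mem_Ico] at hi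
        rw [(hRnew i hi.1 hi.2).2]
        have := g3 i
        omega
      rw [e2]
      refine g7.trans ?_
      have := hm q
      omega
    · have e1 : (Finset.range q').filter (fun i => R' i = B) =
          (Finset.range q).filter (fun i => R i = B) := by
        ext i
        rw [Finset.mem_filter, Finset.mem_filter, Finset.mem_range, Finset.mem_range]
        constructor
        · rintro ⟨h2, h3⟩
          have h4 : i < q := by
            by_contra hcon
            have := (hRnew i (by omega) h2).1
            omega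
          rw [(hRold i h4).1] at h3
          exact ⟨h4, h3⟩
        · rintro ⟨h2, h3⟩
          refine ⟨by omega, ?_⟩
          rw [(hRold i h2).1]
          exact h3
      rw [e1]
      refine le_trans (le_of_eq ?_) (h.defi B h1)
      refine Finset.sum_congr rfl fun i hi => ?_
      rw [Finset.mem_filter, Finset.mem_range] at hi
      rw [(hRold i hi.1).2]
  · -- exactness
    intro s hs
    rcases Nat.eq_or_lt_of_le (show j ≤ s by omega) with h1 | h1
    · subst h1
      have e1 : ∑ i ∈ Finset.range n, (vp (lam i) (R' i - 1) (c' i) j : ℤ) = L + g := by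
        have e2 : (g : ℤ) = ∑ i ∈ Finset.range n,
            if q ≤ i ∧ i < q' then ((min j (lam i) - d i : ℕ) : ℤ) else 0 := by
          rw [← g5, ← Finset.sum_filter]
          push_cast
          refine Finset.sum_congr ?_ fun _ _ => rfl
          ext i
          rw [Finset.mem_filter, Finset.mem_Ico, Finset.mem_range]
          omega
        rw [e2, hL, ← Finset.sum_add_distrib]
        refine Finset.sum_congr rfl fun i _ => ?_
        rcases Nat.lt_or_ge i q with h2 | h2
        · rw [(hRold i h2).1, (hRold i h2).2, if_neg (by omega), add_zero]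
        · rcases Nat.lt_or_ge i q' with h3 | h3
          · rw [(hRnew i h2 h3).1, (hRnew i h2 h3).2, if_pos ⟨h2, h3⟩, (h.un i h2).1,
              (h.un i h2).2]
            have h4 := g3 i
            unfold vp
            split_ifs <;> omega
          · rw [(hRrest i h3).1, (hRrest i h3).2, if_neg (by omega), add_zero, (h.un i h2).1,
              (h.un i h2).2]
      rw [e1]
      linarith
    · rw [← h.exact s h1]
      refine Finset.sum_congr rfl fun i _ => ?_
      rcases Nat.lt_or_ge i q with h2 | h2
      · rw [(hRold i h2).1, (hRold i h2).2]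
      · rcases Nat.lt_or_ge i q' with h3 | h3
        · rw [(hRnew i h2 h3).1, (hRnew i h2 h3).2, (h.un i h2).1, (h.un i h2).2]
          unfold vp
          split_ifs <;> omega
        · rw [(hRrest i h3).1, (hRrest i h3).2, (h.un i h2).1, (h.un i h2).2]
  · -- the crossings
    intro t ht htm hcr
    rcases Nat.lt_or_ge j (t + lam q) with h1 | h1
    · refine (h.cross t ht htm h1).trans (Finset.card_le_card ?_)
      intro i hi
      rw [Finset.mem_filter, Finset.mem_range] at hi
      rw [Finset.mem_filter, Finset.mem_range, (hRold i hi.1).1]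
      exact ⟨by omega, hi.2⟩
    · have h2 : lam q' ≤ lam q := hlam g1
      have h3 : lam q' = lam q := by omega
      have h4 : j = t + lam q := by omega
      have h5 : lam q ≤ m := hm q
      have h6 := hA7 (by omega) (by omega)
      rw [← hg] at h6
      have h7 : ∀ i ∈ Finset.Ico q q', lam i = lam q := by
        intro i hi
        rw [Finset.mem_Ico] at hi
        have := hlam hi.1
        have := hlam hi.2.le
        omega
      have h8 : g ≤ (q' - q) * m := by
        rw [← g5]
        have h9 : ∀ i ∈ Finset.Ico q q', min j (lam i) - d i ≤ m := by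
          intro i _
          have := hm i
          omega
        refine (Finset.sum_le_sum h9).trans ?_
        rw [Finset.sum_const, Nat.card_Ico, smul_eq_mul]
      have h9 : 7 + c0 ≤ q' - q := by
        by_contra hcon
        have h10 : (q' - q) * m ≤ (6 + c0) * m := Nat.mul_le_mul_right m (by omega)
        have h11 : ((g : ℕ) : ℤ) ≤ (((6 + c0) * m : ℕ) : ℤ) := by exact_mod_cast h8.trans h10
        push_cast at h11
        linarith
      have h10 : Finset.Ico q q' ⊆ (Finset.range q').filter (fun i => R' i = lam i + t) := by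
        intro i hi
        have h11 := h7 i hi
        rw [Finset.mem_Ico] at hi
        rw [Finset.mem_filter, Finset.mem_range, (hRnew i hi.1 hi.2).1, h11]
        exact ⟨hi.2, by omega⟩
      have h11 := Finset.card_le_card h10
      rw [Nat.card_Ico] at h11
      omega

/-- The exact filling of a profile by points of arbitrary multiplicities. -/
theorem mix_fill (hr : ∀ s, β < s → r s = 0) (hrβ : 0 ≤ r β)
    (hslope : ∀ s, s < β → (m : ℤ) ≤ r s - r (s + 1))
    (hslope7 : ∀ s, s < 2 * m → (7 + (c0 : ℤ)) * m + 1 ≤ r s - r (s + 1))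
    (hconc : ∀ t, t + 1 < m → r t + r (t + 2) ≤ 2 * r (t + 1) + c0) :
    ∃ b c : ℕ → ℕ, (∀ i, c i ≤ b i + 1) ∧ (∀ i, b i ≤ β) ∧
      ∀ s, ∑ i ∈ Finset.range n, (vp (lam i) (b i) (c i) s : ℤ) = r s := by
  have key : ∀ x ≤ β, ∃ q R c, StageK c0 lam n m β r (β - x) q R c := by
    intro x
    induction x with
    | zero =>
      intro _
      refine ⟨0, fun _ => 1, fun _ => 0, Nat.zero_le n, fun _ _ => ⟨rfl, rfl⟩,
        fun i hi => absurd hi (Nat.not_lt_zero i), fun i hi => absurd hi (Nat.not_lt_zero i),
        fun B _ => by simp, fun B _ => by simp, ?_, ?_⟩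
      · intro s hs
        rw [hr s (by omega)]
        apply Finset.sum_eq_zero
        intro i _
        have := hm i
        unfold vp
        split_ifs <;> omega
      · intro t _ h1 h2
        have := hm 0
        omega
    | succ x ih =>
      intro hx
      obtain ⟨q, R, c, h⟩ := ih (by omega)
      obtain ⟨q', R', c', h'⟩ := h.step c0 lam n m β r hlam hm hβ htot (β - x) q R c (by omega)
        (by omega) (hr (β + 1) (by omega)) hrβ hslope hslope7 hconc
      refine ⟨q', R', c', ?_⟩
      rwa [show β - (x + 1) = β - x - 1 by omega]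
  obtain ⟨q, R, c, h⟩ := key β le_rfl
  rw [Nat.sub_self] at h
  refine ⟨fun i => R i - 1, c, ?_, ?_, ?_⟩
  · intro i
    rcases Nat.lt_or_ge i q with h1 | h1
    · have := h.row i h1
      simp only
      omega
    · rw [(h.un i h1).2]; omega
  · intro i
    rcases Nat.lt_or_ge i q with h1 | h1
    · have := h.row i h1
      simp only
      omega
    · simp only
      rw [(h.un i h1).1]; omega
  · intro s
    rcases Nat.eq_zero_or_pos s with h0 | h0
    · subst h0
      have h1 := h.total c0 lam n m β r hlam hm hβ htot 0 q R c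
      rw [show β + 2 = (β + 1) + 1 from rfl, Finset.sum_range_succ', Finset.sum_range_succ' r] at h1
      have h2 : ∑ s ∈ Finset.range (β + 1), ∑ i ∈ Finset.range n,
          (vp (lam i) (R i - 1) (c i) (s + 1) : ℤ) = ∑ s ∈ Finset.range (β + 1), r (s + 1) :=
        Finset.sum_congr rfl fun s _ => h.exact (s + 1) (by omega)
      linarith
    · exact h.exact s h0

end

end Pool.MP_70e04f_ag.Hex
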