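import Pool.Agent.Lib_MP_70e04f_hex.PotQ

/-!
# Front positions for a general set of exponents (piece FRONTQ)

HOW TO: this is `finrank_of_front` and `good_of_front` of `FrontPot.lean` with `condP Q m p`,
`p i = ![xpos i, u i]`, instead of `degMat k N m xpos u 0`, with `pot_posQ` instead of `pot_pos`
and `condP_mulVec` instead of `degMat_zero_mulVec`. `front_order` is reused with an `N` so large
that `b i ≤ N` for all `i` and `q.2 < N` for all `q ∈ Q` (also `m i + b i + 2 ≤ N` if useful).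
One needs `∑ j < N, rowc Q j = Q.card` (`Finset.card_eq_sum_card_fiberwise`).
-/

namespace Pool.MP_70e04f_ag.Hex

open Polynomial

lemma sum_rowc (Q : Finset (ℕ × ℕ)) (N : ℕ) (hN : ∀ q ∈ Q, q.2 < N) :
    ∑ j ∈ Finset.range N, rowc Q j = Q.card := by
  classical
  unfold rowc
  symm
  apply Finset.card_eq_sum_card_fiberwise
  intro q hq
  exact Finset.mem_coe.2 (Finset.mem_range.2 (hN q hq))

lemma rowc_eq_zero (Q : Finset (ℕ × ℕ)) (N : ℕ) (hN : ∀ q ∈ Q, q.2 < N) (j : ℕ) (hj : N ≤ j) :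
    rowc Q j = 0 := by
  unfold rowc
  rw [Finset.card_eq_zero, Finset.filter_eq_empty_iff]
  intro q hq h
  have := hN q hq
  omega

/-- The dimension bound given by front positions. -/
theorem finrank_of_frontQ {n : ℕ} (Q : Finset (ℕ × ℕ)) (N : ℕ) (hN : ∀ q ∈ Q, q.2 < N)
    (m b c : Fin n → ℕ) (hc : ∀ i, c i ≤ b i + 1) (hb : ∀ i, b i ≤ N) (t : ℕ → ℕ)
    (hcap : ∀ j, rowc Q j ≤ (∑ i, vp (m i) (b i) (c i) j) + t j) :
    ∃ p : Fin n → Fin 2 → ℝ, Module.finrank ℝ (LinearMap.ker (condP Q m p).mulVecLin) ≤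
      ∑ j ∈ Finset.range N, t j := by
  classical
  obtain ⟨u, hu⟩ := pot_posQ Q N hN m (fun i => vp (m i) (b i) (c i))
    (fun j => (2 * (N : ℝ) + 4) ^ j)
    (fun i => (2 * (N : ℝ) + 4) ^ (b i + 1) / ((b i : ℝ) + 3 / 2 - c i))
    (fun i => patOK_vp (m i) (b i) (c i) (hc i))
    (fun i j0 j hj0 hj h => front_order N (m i) (b i) (c i) (hc i) (hb i) j0 j hj0 hj h) t hcap
  refine ⟨fun i => ![xpos i, u i], ?_⟩
  let θ : (↥Q → ℝ) →ₗ[ℝ] ((Σ j : Fin N, Fin (t j)) → ℝ) :=
    { toFun := fun v c => (taylor 1 (rowQ Q v c.1)).coeff c.2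
      map_add' := by
        intro v w
        funext c
        simp only [taylor_rowQ, Pi.add_apply]
        rw [← Finset.sum_add_distrib]
        refine Finset.sum_congr rfl fun q _ => ?_
        split_ifs <;> ring
      map_smul' := by
        intro a v
        funext c
        simp only [taylor_rowQ, Pi.smul_apply, smul_eq_mul, RingHom.id_apply, Finset.mul_sum]
        refine Finset.sum_congr rfl fun q _ => ?_
        split_ifs <;> ring }
  have hcard : Fintype.card (Σ j : Fin N, Fin (t j)) = ∑ j ∈ Finset.range N, t j := by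
    rw [Fintype.card_sigma, Finset.sum_range]
    simp
  rw [← hcard]
  apply finrank_ker_le _ θ
  intro v hv hθ
  apply hu v
  · intro j
    rw [pow_dvd_iff_taylor]
    intro d hd
    by_cases hj : j < N
    · exact congrFun hθ ⟨⟨j, hj⟩, ⟨d, hd⟩⟩
    · rw [rowQ_eq_zero Q N hN v j (by omega)]; simp
  · intro i al be hab
    have hc := congrFun hv ⟨i, ⟨(al, be), mem_tri.2 hab⟩⟩
    rw [condP_mulVec Q N hN] at hc
    exact hc

/-- Front positions that fill or do not overfill the rows of `Q`. -/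
theorem OK.of_front {n : ℕ} (Q : Finset (ℕ × ℕ)) (m b c : Fin n → ℕ) (hc : ∀ i, c i ≤ b i + 1)
    (hcap : (∀ j, rowc Q j ≤ ∑ i, vp (m i) (b i) (c i) j) ∨
      (∀ j, ∑ i, vp (m i) (b i) (c i) j ≤ rowc Q j)) : OK Q m := by
  obtain ⟨N, hN, hb⟩ : ∃ N : ℕ, (∀ q ∈ Q, q.2 < N) ∧ ∀ i, b i ≤ N := by
    refine ⟨(∑ q ∈ Q, (q.2 + 1)) + ∑ i, b i, ?_, ?_⟩
    · intro q hq
      have := Finset.single_le_sum (f := fun q : ℕ × ℕ => q.2 + 1) (fun _ _ => Nat.zero_le _) hq
      omega
    · intro i
      have := Finset.single_le_sum (f := b) (fun _ _ => Nat.zero_le _) (Finset.mem_univ i)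
      omega
  rcases hcap with hcap | hcap
  · obtain ⟨p, hp⟩ := finrank_of_frontQ Q N hN m b c hc hb (fun _ => 0) hcap
    refine ⟨p, ?_⟩
    unfold Good
    rw [Finset.sum_const_zero] at hp
    omega
  · obtain ⟨p, hp⟩ := finrank_of_frontQ Q N hN m b c hc hb
      (fun j => rowc Q j - ∑ i, vp (m i) (b i) (c i) j) (fun j => by have := hcap j; omega)
    refine ⟨p, ?_⟩
    have h1 : ∑ j ∈ Finset.range N, (rowc Q j - ∑ i, vp (m i) (b i) (c i) j) +
        ∑ j ∈ Finset.range N, ∑ i, vp (m i) (b i) (c i) j = Q.card := by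
      rw [← sum_rowc Q N hN, ← Finset.sum_add_distrib]
      refine Finset.sum_congr rfl fun j _ => ?_
      have := hcap j
      omega
    have h0 : ∀ j, N ≤ j → rowc Q j = 0 := rowc_eq_zero Q N hN
    have h2 : ∑ j ∈ Finset.range N, ∑ i, vp (m i) (b i) (c i) j =
        Fintype.card (Σ i : Fin n, ↥(tri (m i))) := by
      rw [Finset.sum_comm, Fintype.card_sigma]
      refine Finset.sum_congr rfl fun i _ => ?_
      have hz : ∀ j, N ≤ j → vp (m i) (b i) (c i) j = 0 := by
        intro j hj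
        have h4 := hcap j
        rw [h0 j hj, Nat.le_zero] at h4
        exact (Finset.sum_eq_zero_iff.1 h4) i (Finset.mem_univ i)
      have h3 := sum_vp (m i) (b i) (c i) (N + b i + 2 + m i) (hc i) (by omega) (by omega)
      have h6 : ∑ j ∈ Finset.range (N + b i + 2 + m i), vp (m i) (b i) (c i) j =
          ∑ j ∈ Finset.range N, vp (m i) (b i) (c i) j := by
        symm
        apply Finset.sum_subset (Finset.range_subset_range.2 (by omega))
        intro j _ hj
        rw [Finset.mem_range, not_lt] at hj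
        exact hz j hj
      rw [h6] at h3
      have h5 := two_card_tri (m i)
      rw [Fintype.card_coe]
      omega
    unfold Good
    rw [Fintype.card_coe]
    omega

end Pool.MP_70e04f_ag.Hex
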