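import Pool.Agent.Lib_MP_70e04f_hex.Change
import Pool.Agent.Lib_MP_70e04f_hex.Compress
import Pool.Agent.Lib_MP_70e04f_hex.FrontQ
import Pool.Agent.Lib_MP_70e04f_hex.Fibres
import Pool.Agent.Lib_MP_70e04f_hex.CardHex
import Pool.Agent.Lib_MP_70e04f_hex.Fill

/-!
# The hexagon with many points
-/

namespace Pool.MP_70e04f_ag.Hex

/-- Front positions for the hexagon. -/
theorem hex_front {n : ℕ} (k l k' l' : ℕ) (hkl : l * k' = k * l' + 1) (A B g e : ℕ)
    (mm b c : Fin n → ℕ) (hc : ∀ i, c i ≤ b i + 1) (nr : ℕ → ℕ)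
    (hnr : ∀ j, nr j + (hexJ k l A B g e (j + 1)).card = (hexJ k l A B g e j).card)
    (hcap : (∀ j, nr j ≤ ∑ i, vp (mm i) (b i) (c i) j) ∨
      (∀ j, ∑ i, vp (mm i) (b i) (c i) j ≤ nr j)) : OK (hex A B g e) mm := by
  obtain ⟨r0, c0, P, Q, φ, h1, h2, h3, h4⟩ := exists_fibres k l k' l' hkl A B g e
  have hrow : ∀ j, rowc Q j = nr j := by
    intro j
    have := h4 j
    have := hnr j
    omega
  have hQ : OK Q mm := by
    apply OK.of_front Q mm b c hc
    simp only [hrow]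
    exact hcap
  have hP : OK P mm := OK.compress r0 c0 h2 h3 hQ
  refine OK.change φ 0 l k 0 l' k' ?_ ?_ hP
  · intro q
    rw [(h1 q).1]
    push_cast
    ring
  · intro q
    rw [(h1 q).2]
    push_cast
    ring

end Pool.MP_70e04f_ag.Hex
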