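import Pool.Agent.Lib_MP_70e04f_hex.Slopes

/-!
# The slopes of the row profile for the curve `y = x ^ k`
-/

namespace Pool.MP_70e04f_ag.Hex

/-- The expansion of the end slope. -/
lemma endL_eq (k X Y w g : ℤ) (hk : 1 ≤ k) (hX1 : 1 ≤ X) (hw : k - 1 ≤ w) :
    F2 (X - 1 + k) (Y - 1 + w + 1) (g + 1) (X - 1 + w + 1) -
      2 * F2 (X - 1) (Y - 1 + w) g (X - 1 + w) =
    2 * (k - X) * Y + X ^ 2 - X + k ^ 2 + k +
      (-T2 (g + 1) + 2 * T2 g + T2 (g + 1 - X - k) - 2 * T2 (g - X)) := by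
  have h1 : T2 (X - 1 + w + 1) = (X - 1 + w + 1) * (X - 1 + w + 1 + 1) :=
    T2_of_nonneg (by omega)
  have h2 : T2 (X - 1 + w) = (X - 1 + w) * (X - 1 + w + 1) := T2_of_nonneg (by omega)
  have h3 : T2 (X - 1 + w + 1 - (X - 1 + k) - 1) = (w - k) * (w - k + 1) := by
    rw [show X - 1 + w + 1 - (X - 1 + k) - 1 = w - k by ring]
    exact T2_of_neg_one (by omega)
  have h4 : T2 (X - 1 + w - (X - 1) - 1) = (w - 1) * (w - 1 + 1) := by
    rw [show X - 1 + w - (X - 1) - 1 = w - 1 by ring]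
    exact T2_of_neg_one (by omega)
  have h5 : T2 (g + 1 - (X - 1 + k) - 1) = T2 (g + 1 - X - k) := by congr 1; ring
  have h6 : T2 (g - (X - 1) - 1) = T2 (g - X) := by congr 1; ring
  unfold F2
  rw [h1, h2, h3, h4, h5, h6]
  ring

/-- The end slope. -/
lemma end_slopeL (k X Y w g : ℤ) (hk : 1 ≤ k) (hX1 : 1 ≤ X) (hX2 : X ≤ k) (hw : k - 1 ≤ w)
    (hY : X ≤ Y) (hYg : g + X + 1 ≤ Y) :
    k ^ 2 + k - 2 ≤ F2 (X - 1 + k) (Y - 1 + w + 1) (g + 1) (X - 1 + w + 1) -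
      2 * F2 (X - 1) (Y - 1 + w) g (X - 1 + w) ∧
    (X = k → 2 * k ^ 2 - 2 ≤ F2 (X - 1 + k) (Y - 1 + w + 1) (g + 1) (X - 1 + w + 1) -
      2 * F2 (X - 1) (Y - 1 + w) g (X - 1 + w)) ∧
    (X = k → g < 0 → 2 * k ^ 2 ≤ F2 (X - 1 + k) (Y - 1 + w + 1) (g + 1) (X - 1 + w + 1) -
      2 * F2 (X - 1) (Y - 1 + w) g (X - 1 + w)) := by
  rw [endL_eq k X Y w g hk hX1 hw]
  have a1 : 0 ≤ (k - X) * (Y - X) := mul_nonneg (by omega) (by omega)
  have a2 : 0 ≤ (k - X) * (Y - (g + X + 1)) := mul_nonneg (by omega) (by omega)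
  have a3 : 0 ≤ (k - X) * (X - 1) := mul_nonneg (by omega) (by omega)
  have a4 : 0 ≤ (X - 1) * X := mul_nonneg (by omega) (by omega)
  have a5 : 0 ≤ (k - 1) * k := mul_nonneg (by omega) (by omega)
  rcases lt_or_ge g 0 with hg | hg
  · rw [T2_of_nonpos (show g + 1 ≤ 0 by omega), T2_of_nonpos hg.le,
      T2_of_nonpos (show g + 1 - X - k ≤ 0 by omega), T2_of_nonpos (show g - X ≤ 0 by omega)]
    refine ⟨by nlinarith, ?_, ?_⟩
    · rintro rfl; nlinarith
    · rintro rfl _; nlinarith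
  rw [T2_of_nonneg (show 0 ≤ g + 1 by omega), T2_of_nonneg hg]
  refine ⟨?_, ?_, fun _ h => absurd h (by omega)⟩
  · rcases le_or_gt g X with h1 | h1
    · rw [T2_of_nonpos (show g + 1 - X - k ≤ 0 by omega), T2_of_nonpos (show g - X ≤ 0 by omega)]
      have : 0 ≤ g * (g + 1) := mul_nonneg hg (by omega)
      nlinarith
    · rw [T2_of_nonneg (show 0 ≤ g - X by omega)]
      obtain ⟨z, rfl⟩ : ∃ z, g = X + z := ⟨g - X, by ring⟩
      rcases le_or_gt (z + 1) k with h2 | h2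
      · rw [T2_of_nonpos (show X + z + 1 - X - k ≤ 0 by omega)]
        have b1 : 0 ≤ z * (k - 1 - z) := mul_nonneg (by omega) (by omega)
        have b2 : 0 ≤ z * (k - 1) := mul_nonneg (by omega) (by omega)
        nlinarith
      · rw [T2_of_nonneg (show 0 ≤ X + z + 1 - X - k by omega)]
        nlinarith
  · rintro rfl
    rcases le_or_gt g X with h1 | h1
    · rw [T2_of_nonpos (show g + 1 - X - X ≤ 0 by omega), T2_of_nonpos (show g - X ≤ 0 by omega)]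
      have : 0 ≤ g * (g - 1) := by
        rcases lt_or_ge g 1 with h | h
        · have : g = 0 := by omega
          rw [this]; norm_num
        · exact mul_nonneg hg (by omega)
      nlinarith
    · rw [T2_of_nonneg (show 0 ≤ g - X by omega)]
      obtain ⟨z, rfl⟩ : ∃ z, g = X + z := ⟨g - X, by ring⟩
      rcases le_or_gt (z + 1) X with h2 | h2
      · rw [T2_of_nonpos (show X + z + 1 - X - X ≤ 0 by omega)]
        have b1 : 0 ≤ z * (X - 1 - z) := mul_nonneg (by omega) (by omega)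
        have b2 : 0 ≤ z * (X - 1) := mul_nonneg (by omega) (by omega)
        nlinarith
      · rw [T2_of_nonneg (show 0 ≤ X + z + 1 - X - X by omega)]
        nlinarith

/-- The last row when it is complete. -/
lemma lastL (X Y w g : ℤ) (hX1 : 1 ≤ X) (hw : 0 ≤ w)
    (hY : X ≤ Y) (hYg : g + X + 1 ≤ Y) :
    X * (X + 1) ≤ F2 (X - 1) (Y - 1 + w) g (X - 1 + w) := by
  have h2 : T2 (X - 1 + w) = (X - 1 + w) * (X - 1 + w + 1) := T2_of_nonneg (by omega)
  have h4 : T2 (X - 1 + w - (X - 1) - 1) = (w - 1) * (w - 1 + 1) := by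
    rw [show X - 1 + w - (X - 1) - 1 = w - 1 by ring]
    exact T2_of_neg_one (by omega)
  have h6 : T2 (g - (X - 1) - 1) = T2 (g - X) := by congr 1; ring
  unfold F2
  rw [h2, h4, h6]
  rcases lt_or_ge g 0 with hg | hg
  · rw [T2_of_nonpos hg.le, T2_of_nonpos (show g - X ≤ 0 by omega)]
    nlinarith
  · rw [T2_of_nonneg hg]
    rcases le_or_gt g X with h1 | h1
    · rw [T2_of_nonpos (show g - X ≤ 0 by omega)]
      have : 0 ≤ g * (X - g) := mul_nonneg hg (by omega)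
      nlinarith
    · rw [T2_of_nonneg (show 0 ≤ g - X by omega)]
      nlinarith

/-- The middle slopes. -/
lemma midL (k A B g j : ℤ) (hk : 1 ≤ k) (hj : 0 ≤ j) :
    2 * k ^ 2 - 2 ≤ S2 k 1 (A - j * k) (B - j) (g - j) (A - j) ∧
      (g - j ≤ 0 → 2 * k ^ 2 ≤ S2 k 1 (A - j * k) (B - j) (g - j) (A - j)) := by
  rw [S2_eq]
  have hjk : 0 ≤ j * (k - 1) := mul_nonneg hj (by omega)
  have e1 : A - j - 2 * 1 - (A - j * k - 2 * k) - 1 = (j + 2) * (k - 1) - 1 := by ring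
  have h1 : T2 (A - j - 2 * 1 - (A - j * k - 2 * k) - 1) -
      2 * T2 (A - j - 2 * 1 - (A - j * k - 2 * k) - 1 - (k - 1)) +
      T2 (A - j - 2 * 1 - (A - j * k - 2 * k) - 1 - 2 * (k - 1)) = 2 * (k - 1) ^ 2 := by
    rw [e1, T2_of_neg_one (show -1 ≤ (j + 2) * (k - 1) - 1 by nlinarith),
      T2_of_neg_one (show -1 ≤ (j + 2) * (k - 1) - 1 - (k - 1) by nlinarith),
      T2_of_neg_one (show -1 ≤ (j + 2) * (k - 1) - 1 - 2 * (k - 1) by nlinarith)]
    ring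
  have h2 := (T2_conv (g - j - 2 * 1 - (A - j * k - 2 * k) - 1) (k - 1) (by omega)).1
  have h3 := (T2_conv (A - j) 1 (by norm_num)).2
  have h4 := (T2_conv (g - j) 1 (by norm_num)).2
  rw [h1]
  refine ⟨by nlinarith, fun hg => ?_⟩
  rw [T2_of_nonpos hg, T2_of_nonpos (show g - j - 1 ≤ 0 by omega),
    T2_of_nonpos (show g - j - 2 * 1 ≤ 0 by omega)]
  nlinarith

end Pool.MP_70e04f_ag.Hex
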