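import Pool.Agent.Lib_MP_70e04f_hex.Defs

/-!
# Points with positive coordinates (piece POS)

PAPER PROOF. Apply `exists_detpoly` (file `Lin.lean`) with `S = MvPolynomial (ι × Fin 2) ℝ`,
`c = C`, `F = condP P m (fun i j => X (i, j))`, `φ0 = eval (fun q => p q.1 q.2)` where `p` comes
from `OK P m` (compare the proof of `generic_of_real` in `General.lean`; one needs the analogue of
`condMat_map` for `condP`, which is `ec_map`). One gets a polynomial `g` which is not zero and such
that `eval (fun q => p' q.1 q.2) g ≠ 0` implies `Good (condP P m p')`. A nonzero polynomial cannot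
vanish on the product of the infinite sets `Set.Ioi 0` (Mathlib: `MvPolynomial.funext_set`), so some
positive `p'` works.
-/

namespace Pool.MP_70e04f_ag.Hex

lemma condP_map {R S ι : Type*} [CommRing R] [CommRing S] (P : Finset (ℕ × ℕ)) (m : ι → ℕ)
    (p : ι → Fin 2 → R) (φ : R →+* S) :
    (condP P m p).map φ = condP P m (fun i j => φ (p i j)) := by
  ext c q
  exact ec_map φ _ _ _ _ _ _

/-- If some real points are good then so are some points with positive coordinates. -/
theorem OK.pos {ι : Type*} [Fintype ι] {P : Finset (ℕ × ℕ)} {m : ι → ℕ} (h : OK P m) :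
    ∃ p : ι → Fin 2 → ℝ, (∀ i j, 0 < p i j) ∧ Good (condP P m p) := by
  classical
  obtain ⟨p0, hp0⟩ := h
  set F : Matrix (Σ i : ι, ↥(tri (m i))) ↥P (MvPolynomial (ι × Fin 2) ℝ) :=
    condP P m (fun i j => MvPolynomial.X (i, j)) with hF
  have hFe : ∀ p : ι → Fin 2 → ℝ, F.map (MvPolynomial.eval (fun q : ι × Fin 2 => p q.1 q.2)) =
      condP P m p := by
    intro p
    rw [hF, condP_map]
    simp
  have hc : ∀ p : ι → Fin 2 → ℝ, (MvPolynomial.eval (fun q : ι × Fin 2 => p q.1 q.2)).comp
      (MvPolynomial.C : ℝ →+* MvPolynomial (ι × Fin 2) ℝ) = RingHom.id ℝ := by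
    intro p
    ext r
    simp
  obtain ⟨g, hg0, hgg⟩ := exists_detpoly (MvPolynomial.C : ℝ →+* MvPolynomial (ι × Fin 2) ℝ) F
    (MvPolynomial.eval (fun q : ι × Fin 2 => p0 q.1 q.2)) (hc p0) (by rw [hFe]; exact hp0)
  obtain ⟨x, hx, hgx⟩ : ∃ x : ι × Fin 2 → ℝ, (∀ q, 0 < x q) ∧ MvPolynomial.eval x g ≠ 0 := by
    by_contra hcon
    push Not at hcon
    apply hg0
    have h0 : g = 0 := by
      apply MvPolynomial.funext_set (fun _ => Set.Ioi (0 : ℝ)) (fun _ => Set.Ioi_infinite 0)
      intro x hx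
      rw [hcon x (fun q => hx q (Set.mem_univ q)), map_zero]
    rw [h0, map_zero]
  refine ⟨fun i j => x (i, j), fun i j => hx (i, j), ?_⟩
  rw [← hFe]
  exact hgg _ (hc (fun i j => x (i, j))) hgx

end Pool.MP_70e04f_ag.Hex
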