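import Pool.Agent.Lib_MP_70e04f_hex.Defs

/-!
# Certificates by potentials for a general set of exponents (piece POTQ)

This is `Pot.lean` (with the parts of `Mono.lean`, `Scale.lean`, `Cert.lean` it uses) for the
basis `x ^ q.1 * u ^ q.2`, `q ∈ Q`, instead of the special basis of `degMat`. HOW TO: copy
`pot_pos`, `off_dvd`, `mem_divSub`, `divSub`, `offSub`, `sc`, `sc_mem_offSub`, `rowPoly_sc`,
`taylor_rowPoly`, `card_support_rowPoly`, `coeff_rowPoly`, `row_zero'`, replacing `tri N` by `Q`,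
`rowPoly k N v j` by `rowQ Q v j`, `q.1 / k` by `q.2`, `q.1 % k + k * q.2` by `q.1`, `nrow k N j`
by `rowc Q j`. `exists_interp`, `descartes`, `row_zero`, `pow_dvd_iff_taylor`, `PatOK`, `xpos`
are reused unchanged.
-/

namespace Pool.MP_70e04f_ag.Hex

open Polynomial Filter Topology

/-- The rows of a coefficient vector. -/
noncomputable def rowQ (Q : Finset (ℕ × ℕ)) (v : ↥Q → ℝ) (j : ℕ) : ℝ[X] :=
  ∑ q : ↥Q, if q.1.2 = j then C (v q) * X ^ q.1.1 else 0

section
variable (Q : Finset (ℕ × ℕ))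

lemma taylor_rowQ (v : ↥Q → ℝ) (j : ℕ) (x : ℝ) (α : ℕ) :
    (taylor x (rowQ Q v j)).coeff α = ∑ q : ↥Q, if q.1.2 = j then
      v q * ((X + C x) ^ q.1.1 : ℝ[X]).coeff α else 0 := by
  rw [rowQ, map_sum, Polynomial.finsetSum_coeff]
  refine Finset.sum_congr rfl fun q _ => ?_
  split_ifs with h
  · rw [Polynomial.taylor_apply, mul_comp, C_comp, pow_comp, X_comp, coeff_C_mul]
  · simp

lemma rowQ_eq_zero (N : ℕ) (hN : ∀ q ∈ Q, q.2 < N) (v : ↥Q → ℝ) (j : ℕ) (hj : N ≤ j) :
    rowQ Q v j = 0 := by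
  rw [rowQ]
  apply Finset.sum_eq_zero
  intro q _
  rw [if_neg]
  intro h
  have := hN q.1 q.2
  omega

lemma card_support_rowQ (v : ↥Q → ℝ) (j : ℕ) : (rowQ Q v j).support.card ≤ rowc Q j := by
  classical
  unfold rowc
  have hsub : (rowQ Q v j).support ⊆ (Q.filter (fun q => q.2 = j)).image (fun q => q.1) := by
    intro s hs
    rw [Polynomial.mem_support_iff, rowQ, Polynomial.finsetSum_coeff] at hs
    obtain ⟨q, _, hq⟩ := Finset.exists_ne_zero_of_sum_ne_zero hs
    rw [Finset.mem_image]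
    by_cases h : q.1.2 = j
    · refine ⟨q.1, Finset.mem_filter.2 ⟨q.2, h⟩, ?_⟩
      rw [if_pos h, coeff_C_mul, coeff_X_pow] at hq
      by_contra hne
      apply hq
      rw [if_neg (fun h' => hne h'.symm), mul_zero]
    · rw [if_neg h] at hq
      simp at hq
  exact (Finset.card_le_card hsub).trans Finset.card_image_le

lemma coeff_rowQ (v : ↥Q → ℝ) (q : ↥Q) : (rowQ Q v q.1.2).coeff q.1.1 = v q := by
  rw [rowQ, Polynomial.finsetSum_coeff, Finset.sum_eq_single q]
  · rw [if_pos rfl, coeff_C_mul, coeff_X_pow, if_pos rfl, mul_one]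
  · intro r _ hr
    split_ifs with h
    · rw [coeff_C_mul, coeff_X_pow, if_neg, mul_zero]
      intro he
      apply hr
      exact Subtype.ext (Prod.ext he.symm h)
    · simp
  · intro h; exact absurd (Finset.mem_univ q) h

/-- Scaling the rows. -/
def scQ (s : ℕ → ℝ) (v : ↥Q → ℝ) : ↥Q → ℝ := fun q => s q.1.2 * v q

lemma rowQ_scQ (s : ℕ → ℝ) (v : ↥Q → ℝ) (j : ℕ) :
    rowQ Q (scQ Q s v) j = C (s j) * rowQ Q v j := by
  rw [rowQ, rowQ, Finset.mul_sum]
  refine Finset.sum_congr rfl fun q _ => ?_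
  split_ifs with h
  · rw [scQ, h, C_mul, mul_assoc]
  · simp

/-- The rows as linear maps. -/
noncomputable def rowLinQ (j : ℕ) : (↥Q → ℝ) →ₗ[ℝ] ℝ[X] where
  toFun v := rowQ Q v j
  map_add' v w := by
    simp only [rowQ, ← Finset.sum_add_distrib]
    refine Finset.sum_congr rfl fun q _ => ?_
    split_ifs
    · rw [Pi.add_apply, C_add, add_mul]
    · simp
  map_smul' a v := by
    simp only [rowQ, RingHom.id_apply, Finset.smul_sum]
    refine Finset.sum_congr rfl fun q _ => ?_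
    split_ifs
    · rw [Pi.smul_apply, smul_eq_mul, C_mul, smul_eq_C_mul, mul_assoc]
    · simp

lemma rowLinQ_apply (j : ℕ) (v : ↥Q → ℝ) : rowLinQ Q j v = rowQ Q v j := rfl

/-- The vectors whose row `j` is divisible by `(X - x) ^ c`. -/
noncomputable def divSubQ (x : ℝ) (c j : ℕ) : Submodule ℝ (↥Q → ℝ) :=
  ((Ideal.span {(X - C x) ^ c}).restrictScalars ℝ).comap (rowLinQ Q j)

lemma mem_divSubQ (x : ℝ) (c j : ℕ) (v : ↥Q → ℝ) :
    v ∈ divSubQ Q x c j ↔ (X - C x) ^ c ∣ rowQ Q v j := by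
  rw [divSubQ, Submodule.mem_comap, Submodule.restrictScalars_mem, Ideal.mem_span_singleton]
  rfl

/-- Vanishing to order `m` at the point `(x, u)`. -/
def OffQ (N m : ℕ) (x u : ℝ) (v : ↥Q → ℝ) : Prop :=
  ∀ al be, al + be < m → ∑ j ∈ Finset.range N,
    (taylor x (rowQ Q v j)).coeff al * ((X + C u : ℝ[X]) ^ j).coeff be = 0

lemma scQ_mem_OffQ (N m : ℕ) (x u c : ℝ) (v : ↥Q → ℝ) (s : ℕ → ℝ)
    (hs : ∀ j, s j = c * u ^ j) (hv : OffQ Q N m x u v) :
    OffQ Q N m x 1 (scQ Q s v) := by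
  intro al be h
  have h1 := hv al be h
  rw [← mul_zero (c * u ^ be), ← h1, Finset.mul_sum]
  refine Finset.sum_congr rfl fun j _ => ?_
  rw [rowQ_scQ, taylor_mul, taylor_C, coeff_C_mul, hs, coeff_X_add_C_pow, coeff_X_add_C_pow,
    one_pow, one_mul]
  rcases Nat.lt_or_ge j be with hj | hj
  · rw [Nat.choose_eq_zero_of_lt hj]; simp
  · obtain ⟨e, rfl⟩ := Nat.exists_eq_add_of_le hj
    rw [Nat.add_sub_cancel_left, pow_add]
    ring

/-- The vanishing conditions in terms of one polynomial for each order in `x`. -/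
lemma off_dvdQ (N m : ℕ) (x : ℝ) (v : ↥Q → ℝ) (hv : OffQ Q N m x 1 v) (al : ℕ) :
    (X - C (1 : ℝ)) ^ (m - al) ∣
      ∑ j ∈ Finset.range N, C ((taylor x (rowQ Q v j)).coeff al) * X ^ j := by
  rw [Polynomial.X_sub_C_pow_dvd_iff, Polynomial.X_pow_dvd_iff]
  intro d hd
  rw [Polynomial.sum_comp, Polynomial.finsetSum_coeff]
  have h := hv al d (by omega)
  rw [← h]
  refine Finset.sum_congr rfl fun j _ => ?_
  simp only [mul_comp, C_comp, pow_comp, X_comp, coeff_C_mul]

end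

/-- The conditions in terms of the rows. -/
theorem condP_mulVec {ι : Type*} (Q : Finset (ℕ × ℕ)) (N : ℕ) (hN : ∀ q ∈ Q, q.2 < N)
    (m : ι → ℕ) (p : ι → Fin 2 → ℝ) (v : ↥Q → ℝ) (c : Σ i : ι, ↥(tri (m i))) :
    (condP Q m p).mulVec v c = ∑ j ∈ Finset.range N,
      (taylor (p c.1 0) (rowQ Q v j)).coeff c.2.1.1 *
        ((X + C (p c.1 1)) ^ j : ℝ[X]).coeff c.2.1.2 := by
  have h2 : (condP Q m p).mulVec v c = ∑ q : ↥Q, condP Q m p c q * v q := rfl
  rw [h2]
  simp only [taylor_rowQ, Finset.sum_mul]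
  rw [Finset.sum_comm]
  refine Finset.sum_congr rfl fun q _ => ?_
  rw [Finset.sum_eq_single q.1.2]
  · rw [if_pos rfl]; unfold condP ec; ring
  · intro j _ hj
    rw [if_neg (Ne.symm hj), zero_mul]
  · intro h
    exfalso
    apply h
    rw [Finset.mem_range]
    exact hN q.1 q.2

/-- The limit argument. -/
theorem pot_posQ {n : ℕ} (Q : Finset (ℕ × ℕ)) (N : ℕ) (hN : ∀ q ∈ Q, q.2 < N)
    (m : Fin n → ℕ) (V : Fin n → ℕ → ℕ) (w : ℕ → ℝ)
    (s : Fin n → ℝ) (hV : ∀ i, PatOK (m i) (V i))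
    (hθ : ∀ i j0 j, j0 < N → j < N → V i j < V i j0 → s i * j - w j < s i * j0 - w j0)
    (t : ℕ → ℕ) (hcap : ∀ j, rowc Q j ≤ (∑ i, V i j) + t j) :
    ∃ u : Fin n → ℝ, ∀ v : ↥Q → ℝ, (∀ j, (X - C (1 : ℝ)) ^ (t j) ∣ rowQ Q v j) →
      (∀ i al be, al + be < m i → ∑ j ∈ Finset.range N,
        (taylor (xpos i) (rowQ Q v j)).coeff al * ((X + C (u i) : ℝ[X]) ^ j).coeff be = 0) →
      v = 0 := by
  classical
  by_contra hcon
  push Not at hcon
  have hpos : ∀ p : ℕ, (0 : ℝ) < ((p : ℝ) + 1) := fun p => by positivity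
  have h1 : ∀ p : ℕ, ∃ z : ↥Q → ℝ, ‖z‖ = 1 ∧
      (∀ j, (X - C (1 : ℝ)) ^ (t j) ∣ rowQ Q z j) ∧
      ∀ i, OffQ Q N (m i) (xpos i) 1 (scQ Q (fun j => ((p : ℝ) + 1) ^ (s i * j - w j)) z) := by
    intro p
    obtain ⟨v, hv1, hv2, hj⟩ := hcon (fun i => ((p : ℝ) + 1) ^ (s i))
    set v' := scQ Q (fun j => ((p : ℝ) + 1) ^ (w j)) v with hv'
    have hv0 : v' ≠ 0 := by
      intro h0
      apply hj
      funext q
      have h2 := congrFun h0 q
      rw [hv'] at h2
      simp only [scQ, Pi.zero_apply] at h2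
      rcases mul_eq_zero.1 h2 with h4 | h4
      · exact absurd h4 (Real.rpow_pos_of_pos (hpos p) _).ne'
      · exact h4
    refine ⟨‖v'‖⁻¹ • v', ?_, ?_, ?_⟩
    · rw [norm_smul, norm_inv, norm_norm, inv_mul_cancel₀ (norm_ne_zero_iff.2 hv0)]
    · intro j
      rw [← mem_divSubQ]
      apply Submodule.smul_mem
      rw [mem_divSubQ, hv', rowQ_scQ]
      exact (hv1 j).mul_left _
    · intro i
      have h2 : scQ Q (fun j => ((p : ℝ) + 1) ^ (s i * j - w j)) (‖v'‖⁻¹ • v') =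
          scQ Q (fun j => ‖v'‖⁻¹ * (((p : ℝ) + 1) ^ (s i)) ^ j) v := by
        funext q
        simp only [scQ, Pi.smul_apply, smul_eq_mul, hv']
        rw [← Real.rpow_natCast, ← Real.rpow_mul (hpos p).le, Real.rpow_sub (hpos p)]
        have := (Real.rpow_pos_of_pos (hpos p) (w q.1.2)).ne'
        field_simp
      rw [h2]
      exact scQ_mem_OffQ Q N (m i) (xpos i) (((p : ℝ) + 1) ^ (s i)) ‖v'‖⁻¹ v _ (fun j => rfl)
        (hv2 i)
  choose z hz1 hz2 hz3 using h1
  obtain ⟨a, ha, φ, hφ, hlim⟩ := (isCompact_sphere (0 : ↥Q → ℝ) 1).tendsto_subseq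
    (x := z) (fun p => by rw [mem_sphere_zero_iff_norm]; exact hz1 p)
  have ha0 : a ≠ 0 := by
    rintro rfl
    rw [mem_sphere_zero_iff_norm, norm_zero] at ha
    exact zero_ne_one ha
  apply ha0
  have hat : ∀ j, (X - C (1 : ℝ)) ^ (t j) ∣ rowQ Q a j := by
    intro j
    rw [← mem_divSubQ]
    have hc : IsClosed (divSubQ Q 1 (t j) j : Set (↥Q → ℝ)) :=
      Submodule.closed_of_finiteDimensional _
    exact hc.mem_of_tendsto hlim
      (Eventually.of_forall fun p => (mem_divSubQ Q 1 (t j) j _).2 (hz2 (φ p) j))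
  have hlam : Tendsto (fun p : ℕ => (((φ p : ℕ) : ℝ) + 1)) atTop atTop :=
    (tendsto_atTop_add_const_right _ _ tendsto_natCast_atTop_atTop).comp hφ.tendsto_atTop
  have hcoef : ∀ (x : ℝ) (j al : ℕ), Tendsto
      (fun p => (taylor x (rowQ Q (z (φ p)) j)).coeff al) atTop
      (𝓝 ((taylor x (rowQ Q a j)).coeff al)) := by
    intro x j al
    simp only [taylor_rowQ]
    apply tendsto_finsetSum
    intro q _
    split_ifs
    · exact ((tendsto_pi_nhds.1 hlim) q).mul_const _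
    · exact tendsto_const_nhds
  have hdiv : ∀ i j0, (X - C (xpos i)) ^ (V i j0) ∣ rowQ Q a j0 := by
    intro i j0
    by_cases hj0 : j0 < N
    swap
    · rw [rowQ_eq_zero Q N hN a j0 (by omega)]; exact dvd_zero _
    rw [pow_dvd_iff_taylor]
    intro al hal
    obtain ⟨g, hg⟩ := exists_interp N (m i - al) ((Finset.range N).filter (fun j => al < V i j))
      (hV i al _ (fun j hj => (Finset.mem_filter.1 hj).2)) j0
    have h2 : ∀ p, (taylor (xpos i) (rowQ Q (z (φ p)) j0)).coeff al =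
        ∑ j ∈ Finset.range N \ (Finset.range N).filter (fun j => al < V i j),
          g j * ((taylor (xpos i) (rowQ Q (z (φ p)) j)).coeff al *
            ((((φ p : ℕ) : ℝ) + 1) ^ (-((s i * j0 - w j0) - (s i * j - w j))))) := by
      intro p
      have h3 := off_dvdQ Q N (m i) (xpos i) _ (hz3 (φ p) i) al
      have h4 := hg _ h3 (by
        intro j hj
        rw [Polynomial.finsetSum_coeff]
        apply Finset.sum_eq_zero
        intro r hr
        rw [Finset.mem_range] at hr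
        rw [coeff_C_mul, coeff_X_pow, if_neg (by omega), mul_zero])
      have h5 : ∀ j < N, (∑ r ∈ Finset.range N, C ((taylor (xpos i) (rowQ Q
          (scQ Q (fun j => (((φ p : ℕ) : ℝ) + 1) ^ (s i * j - w j)) (z (φ p))) r)).coeff al) *
            X ^ r : ℝ[X]).coeff j = (((φ p : ℕ) : ℝ) + 1) ^ (s i * j - w j) *
            (taylor (xpos i) (rowQ Q (z (φ p)) j)).coeff al := by
        intro j hj
        rw [Polynomial.finsetSum_coeff]
        simp only [coeff_C_mul, coeff_X_pow, mul_ite, mul_one, mul_zero]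
        rw [Finset.sum_ite_eq, if_pos (Finset.mem_range.2 hj), rowQ_scQ, taylor_mul, taylor_C,
          coeff_C_mul]
      rw [h5 j0 hj0] at h4
      have h6 := (Real.rpow_pos_of_pos (hpos (φ p)) (s i * j0 - w j0)).ne'
      have h7 : (taylor (xpos i) (rowQ Q (z (φ p)) j0)).coeff al =
          ((((φ p : ℕ) : ℝ) + 1) ^ (s i * j0 - w j0))⁻¹ *
          ∑ j ∈ Finset.range N \ (Finset.range N).filter (fun j => al < V i j),
            g j * (∑ r ∈ Finset.range N, C ((taylor (xpos i) (rowQ Q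
          (scQ Q (fun j => (((φ p : ℕ) : ℝ) + 1) ^ (s i * j - w j)) (z (φ p))) r)).coeff al) *
            X ^ r : ℝ[X]).coeff j := by
        rw [← h4, ← mul_assoc, inv_mul_cancel₀ h6, one_mul]
      rw [h7, Finset.mul_sum]
      refine Finset.sum_congr rfl fun j hj => ?_
      rw [Finset.mem_sdiff, Finset.mem_range] at hj
      rw [h5 j hj.1, neg_sub, Real.rpow_sub (hpos (φ p)) (s i * j - w j) (s i * j0 - w j0)]
      field_simp
    have h3 : Tendsto (fun p => ∑ j ∈ Finset.range N \ (Finset.range N).filter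
        (fun j => al < V i j), g j * ((taylor (xpos i) (rowQ Q (z (φ p)) j)).coeff al *
            ((((φ p : ℕ) : ℝ) + 1) ^ (-((s i * j0 - w j0) - (s i * j - w j)))))) atTop
        (𝓝 (∑ j ∈ Finset.range N \ (Finset.range N).filter (fun j => al < V i j),
          g j * ((taylor (xpos i) (rowQ Q a j)).coeff al * 0))) := by
      apply tendsto_finsetSum
      intro j hj
      rw [Finset.mem_sdiff, Finset.mem_range, Finset.mem_filter, Finset.mem_range, not_and,
        not_lt] at hj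
      refine ((hcoef (xpos i) j al).mul ?_).const_mul _
      have h4 := hθ i j0 j hj0 hj.1 (lt_of_le_of_lt (hj.2 hj.1) hal)
      exact (tendsto_rpow_neg_atTop (by linarith)).comp hlam
    simp only [mul_zero, Finset.sum_const_zero] at h3
    exact tendsto_nhds_unique ((hcoef (xpos i) j0 al).congr fun p => h2 p) h3
  have hzero : ∀ j, rowQ Q a j = 0 := by
    intro j
    exact row_zero xpos xpos_pos xpos_inj 1 one_pos xpos_ne _ Finset.univ (fun i => V i j)
      (fun i _ => hdiv i j) (t j) (hat j) ((card_support_rowQ Q a j).trans (hcap j))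
  funext q
  rw [← coeff_rowQ Q a q, hzero]
  simp

end Pool.MP_70e04f_ag.Hex
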