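import Pool.Agent.Lib_MP_70e04f_hex.HexTwo
import Pool.Agent.Lib_MP_70e04f_hex.Slots

/-!
# Two arbitrary multiplicities
-/

namespace Pool.MP_70e04f_ag.Hex

/-- Two arbitrary multiplicities. -/
theorem tri_two {n : ℕ} (k m s M d : ℕ) (mm : Fin n → ℕ) (T : Finset (Fin n))
    (hT : T.card ≤ 2) (h7 : 7 * m + s < k ^ 2) (h7' : 7 * m + s + T.card ≤ k ^ 2)
    (hM : 2 * m ≤ M) (hmm : ∀ i, i ∉ T → mm i ≤ M)
    (hs : (Finset.univ.filter (fun i => i ∉ T ∧ m < mm i)).card ≤ s)
    (hd : k * (M + 1) ≤ d + 1) (hdT : ∀ i ∈ T, mm i + k * (M + 1) ≤ d + 1)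
    (hpair : ∀ i ∈ T, ∀ j ∈ T, i ≠ j → mm i + mm j ≤ d + 1) :
    OK (tri (d + 1)) mm := by
  classical
  have hk0 : 0 < k := by
    rcases Nat.eq_zero_or_pos k with h | h
    · subst h; simp at h7
    · exact h
  have hkM : 1 ≤ k * (M + 1) := Nat.one_le_iff_ne_zero.2 (by positivity)
  obtain ⟨f'⟩ : Nonempty (↥T ↪ Fin 2) := by
    apply Function.Embedding.nonempty_of_card_le
    simpa using hT
  let f : ↥T ↪ Fin 3 := f'.trans ⟨![0, 2], by decide⟩
  have hdT' : ∀ i ∈ T, mm i ≤ d + 1 := fun i hi => by have := hdT i hi; omega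
  have hf1 : slotv mm T f 1 = 0 := by
    apply slotv_zero
    intro t ht
    have h1 : f t = ![0, 2] (f' t) := rfl
    rw [h1] at ht
    revert ht
    generalize f' t = a
    fin_cases a <;> decide
  have hboth : slotv mm T f 0 ≠ 0 → slotv mm T f 2 ≠ 0 → 2 ≤ T.card := by
    intro h0 h2
    have e0 : ∃ t, f t = 0 := by
      by_contra hcon
      push Not at hcon
      exact h0 (slotv_zero mm T f 0 hcon)
    have e2 : ∃ t, f t = 2 := by
      by_contra hcon
      push Not at hcon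
      exact h2 (slotv_zero mm T f 2 hcon)
    obtain ⟨t0, ht0⟩ := e0
    obtain ⟨t2, ht2⟩ := e2
    have hne : t0.1 ≠ t2.1 := by
      intro h
      have : t0 = t2 := Subtype.ext h
      rw [this, ht2] at ht0
      exact absurd ht0 (by decide)
    exact Finset.one_lt_card.2 ⟨t0.1, t0.2, t2.1, t2.2, hne⟩
  apply tri_of_emb mm T f d hdT' hpair
  rw [hf1]
  have key : ∀ j, k * (M + 1) + slotv mm T f j ≤ d + 1 := by
    intro j
    have := slotv_le mm T f (d + 1 - k * (M + 1)) (fun i hi => by have := hdT i hi; omega) j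
    omega
  -- the auxiliary constant
  obtain ⟨t, ht1, ht2⟩ : ∃ t, 7 * m + s + t < k ^ 2 ∧
      (slotv mm T f 0 = 0 ∨ slotv mm T f 2 = 0 ∨ 1 ≤ t) := by
    by_cases h0 : slotv mm T f 0 = 0
    · exact ⟨0, h7, Or.inl h0⟩
    by_cases h2 : slotv mm T f 2 = 0
    · exact ⟨0, h7, Or.inr (Or.inl h2)⟩
    · have := hboth h0 h2
      exact ⟨1, by omega, Or.inr (Or.inr le_rfl)⟩
  have main : ∀ al ga : ℕ, ga ≤ al → k * (M + 1) + al ≤ d + 1 → (ga = 0 ∨ 1 ≤ t) →
      OK (zed d al 0 ga) (fun i => if i ∈ T then 0 else mm i) := by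
    intro al ga h1 h2 h3
    rw [zed_eq_hex (by omega) (Nat.zero_le d)]
    have e1 : d - al - 0 = d - al := rfl
    have e2 : d - 0 = d := rfl
    rw [e1, e2]
    apply hex_two k m s t M (d - al) d ga _ ht1 h3 hM
    · intro i
      split_ifs with h
      · exact Nat.zero_le _
      · exact hmm i h
    · refine le_trans (Finset.card_le_card ?_) hs
      intro i hi
      rw [Finset.mem_filter] at hi ⊢
      have h2 := hi.2
      split_ifs at h2 with h
      · omega
      · exact ⟨hi.1, h, h2⟩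
    · omega
    · omega
  rcases Nat.le_total (slotv mm T f 2) (slotv mm T f 0) with h | h
  · exact main _ _ h (key 0) (by omega)
  · exact zed_swap1 (main _ _ h (key 2) (by omega))

end Pool.MP_70e04f_ag.Hex
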