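import Pool.Agent.Lib_MP_70e04f_hex.Change
import Pool.Agent.Lib_MP_70e04f_hex.Cut

/-!
# Three points at the coordinate points (piece ZED)

PAPER PROOF.
`zed_swap1`: `(a, b) ↦ (d - a - b, b)` is a bijection `zed d al be ga ≃ zed d ga be al`, affine;
use `OK.change` with `u0 = d, u1 = u2 = -1, v0 = v1 = 0, v2 = 1`.
`zed_swap2`: the same with `(a, b) ↦ (a, d - a - b)`, `zed d al be ga ≃ zed d al ga be`.
`zed_cut`: `OK.cut` with `P = zed d al be 0`, `μ = ga`: `tri ga ⊆ zed d al be 0` by the three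
inequalities, and `zed d al be 0 \ tri ga = zed d al be ga`.
`tri_of_zed`: `zed_cut` puts the point `ga`; then `zed_swap1` moves `al` to the third place
(`zed d al be 0` from `zed d 0 be al`), `zed_cut` puts the point `al`, and `zed_swap2` and
`zed_cut` put the point `be`; finally `zed d 0 0 0 = tri (d + 1)`. (`zed_cut` is applied with the
other two places `(al, be)`, then `(0, be)`, then `(0, 0)`.)
-/

namespace Pool.MP_70e04f_ag.Hex

variable {ι : Type*} [Fintype ι]

/-- The bijection of `zed_swap1`. -/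
private def zedE1 (d al be ga : ℕ) : ↥(zed d al be ga) ≃ ↥(zed d ga be al) where
  toFun q := ⟨(d - q.1.1 - q.1.2, q.1.2), by
    have h := mem_zed.mp q.2
    rw [mem_zed]
    dsimp only
    omega⟩
  invFun q := ⟨(d - q.1.1 - q.1.2, q.1.2), by
    have h := mem_zed.mp q.2
    rw [mem_zed]
    dsimp only
    omega⟩
  left_inv q := by
    have h := mem_zed.mp q.2
    apply Subtype.ext
    apply Prod.ext
    · dsimp only
      omega
    · rfl
  right_inv q := by
    have h := mem_zed.mp q.2
    apply Subtype.ext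
    apply Prod.ext
    · dsimp only
      omega
    · rfl

/-- The bijection of `zed_swap2`. -/
private def zedE2 (d al be ga : ℕ) : ↥(zed d al be ga) ≃ ↥(zed d al ga be) where
  toFun q := ⟨(q.1.1, d - q.1.1 - q.1.2), by
    have h := mem_zed.mp q.2
    rw [mem_zed]
    dsimp only
    omega⟩
  invFun q := ⟨(q.1.1, d - q.1.1 - q.1.2), by
    have h := mem_zed.mp q.2
    rw [mem_zed]
    dsimp only
    omega⟩
  left_inv q := by
    have h := mem_zed.mp q.2
    apply Subtype.ext
    apply Prod.ext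
    · rfl
    · dsimp only
      omega
  right_inv q := by
    have h := mem_zed.mp q.2
    apply Subtype.ext
    apply Prod.ext
    · rfl
    · dsimp only
      omega

theorem zed_swap1 {d al be ga : ℕ} {m : ι → ℕ} (h : OK (zed d ga be al) m) :
    OK (zed d al be ga) m := by
  refine OK.change (zedE1 d al be ga) d (-1) (-1) 0 0 1 ?_ ?_ h
  · intro q
    have h1 := mem_zed.mp q.2
    show (((d - q.1.1 - q.1.2 : ℕ)) : ℝ) = _
    have h2 : d - q.1.1 - q.1.2 + (q.1.1 + q.1.2) = d := by omega
    have h3 : (((d - q.1.1 - q.1.2 : ℕ)) : ℝ) + ((q.1.1 : ℝ) + (q.1.2 : ℝ)) = d := by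
      exact_mod_cast h2
    linarith
  · intro q
    show ((q.1.2 : ℕ) : ℝ) = _
    ring

theorem zed_swap2 {d al be ga : ℕ} {m : ι → ℕ} (h : OK (zed d al ga be) m) :
    OK (zed d al be ga) m := by
  refine OK.change (zedE2 d al be ga) 0 1 0 d (-1) (-1) ?_ ?_ h
  · intro q
    show ((q.1.1 : ℕ) : ℝ) = _
    ring
  · intro q
    have h1 := mem_zed.mp q.2
    show (((d - q.1.1 - q.1.2 : ℕ)) : ℝ) = _
    have h2 : d - q.1.1 - q.1.2 + (q.1.1 + q.1.2) = d := by omega
    have h3 : (((d - q.1.1 - q.1.2 : ℕ)) : ℝ) + ((q.1.1 : ℝ) + (q.1.2 : ℝ)) = d := by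
      exact_mod_cast h2
    linarith

theorem zed_cut {d al be ga : ℕ} (h1 : ga ≤ d + 1) (h2 : al + ga ≤ d + 1) (h3 : be + ga ≤ d + 1)
    {m : ι → ℕ} (h : OK (zed d al be ga) m) :
    OK (zed d al be 0) (fun o : Option ι => o.elim ga m) := by
  apply OK.cut
  · intro q hq
    rw [mem_tri] at hq
    rw [mem_zed]
    omega
  · have e : zed d al be 0 \ tri ga = zed d al be ga := by
      ext q
      rw [Finset.mem_sdiff, mem_zed, mem_zed, mem_tri]
      omega
    rw [e]
    exact h

/-- From the hexagon to the triangle with three more points. -/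
theorem tri_of_zed {d al be ga : ℕ} (h1 : al ≤ d + 1) (h2 : be ≤ d + 1) (h3 : ga ≤ d + 1)
    (h12 : al + be ≤ d + 1) (h13 : al + ga ≤ d + 1) (h23 : be + ga ≤ d + 1) {m : ι → ℕ}
    (h : OK (zed d al be ga) m) :
    OK (tri (d + 1)) (fun o : Option (Option (Option ι)) =>
      o.elim be (fun o => o.elim al (fun o => o.elim ga m))) := by
  have k1 := zed_cut h3 h13 h23 h
  have k2 := zed_cut (d := d) (al := 0) (be := be) (ga := al) h1 (by omega) (by omega)
    (zed_swap1 k1)
  have k3 := zed_cut (d := d) (al := 0) (be := 0) (ga := be) h2 (by omega) (by omega)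
    (zed_swap2 k2)
  have e : zed d 0 0 0 = tri (d + 1) := by
    ext q
    rw [mem_zed, mem_tri]
    omega
  rw [e] at k3
  exact k3

/-- `zed` is a hexagon. -/
theorem zed_eq_hex {d al be ga : ℕ} (h1 : al ≤ d) (h2 : be ≤ d) :
    zed d al be ga = hex (d - al) (d - be) ga (d - al - be) := by
  ext q
  rw [mem_zed, mem_hex]
  omega

end Pool.MP_70e04f_ag.Hex
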